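import Mathlib

set_option autoImplicit false

namespace Pool.Agent.Helper31.GB

open Finset

lemma sqrt_sum_le {κ : Type} (E : Finset κ) (n q : κ → ℝ) (hn : ∀ p ∈ E, 0 ≤ n p)
    (hq : ∀ p ∈ E, 0 ≤ q p) (H : ℝ) (h : ∑ p ∈ E, (√(n p) - √(q p)) ^ 2 ≤ H) :
    √(∑ p ∈ E, n p) ≤ √(∑ p ∈ E, q p) + √H := by
  set a := ∑ p ∈ E, q p with ha
  set b := ∑ p ∈ E, (√(n p) - √(q p)) ^ 2 with hb
  have ha0 : 0 ≤ a := sum_nonneg hq
  have hb0 : 0 ≤ b := sum_nonneg fun p _ => sq_nonneg _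
  have hH0 : 0 ≤ H := hb0.trans h
  have h1 : ∑ p ∈ E, n p = a + 2 * ∑ p ∈ E, √(q p) * (√(n p) - √(q p)) + b := by
    rw [ha, hb, mul_sum, ← sum_add_distrib, ← sum_add_distrib]
    refine sum_congr rfl fun p hp => ?_
    have e1 := Real.sq_sqrt (hn p hp)
    have e2 := Real.sq_sqrt (hq p hp)
    nlinarith
  have h2 : ∑ p ∈ E, √(q p) * (√(n p) - √(q p)) ≤ √a * √b := by
    have := Real.sum_mul_le_sqrt_mul_sqrt E (fun p => √(q p)) (fun p => √(n p) - √(q p))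
    have h3 : ∑ p ∈ E, √(q p) ^ 2 = a := by
      rw [ha]; exact sum_congr rfl fun p hp => Real.sq_sqrt (hq p hp)
    rw [h3] at this
    exact this
  have h4 : √b ≤ √H := Real.sqrt_le_sqrt h
  rw [Real.sqrt_le_iff]
  refine ⟨by positivity, ?_⟩
  rw [h1]
  have e3 := Real.sq_sqrt ha0
  have e4 := Real.sq_sqrt hH0
  have e5 : √a * √b ≤ √a * √H := mul_le_mul_of_nonneg_left h4 (Real.sqrt_nonneg _)
  nlinarith

lemma sqrt_sum_le' {κ : Type} (Y E : Finset κ) (hE : E ⊆ Y) (n q : κ → ℝ)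
    (hn : ∀ p, 0 ≤ n p) (hq : ∀ p, 0 ≤ q p) (H : ℝ)
    (h : ∑ p ∈ Y, (√(n p) - √(q p)) ^ 2 ≤ H) :
    √(∑ p ∈ E, n p) ≤ √(∑ p ∈ E, q p) + √H :=
  sqrt_sum_le E n q (fun p _ => hn p) (fun p _ => hq p) H
    ((sum_le_sum_of_subset_of_nonneg hE fun p _ _ => sq_nonneg _).trans h)

lemma prod_le (Y : Finset (ℤ × ℤ)) (f g : ℤ → ℝ) (hf : ∀ s, 0 ≤ f s) (hg : ∀ s, 0 ≤ g s)
    (a b : ℝ) (hA : ∀ A : Finset ℤ, ∑ s ∈ A, f s ≤ a) (hB : ∀ A : Finset ℤ, ∑ s ∈ A, g s ≤ b) :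
    ∑ p ∈ Y, f (p.1 + p.2) * g (p.1 - p.2) ≤ a * b := by
  let φ : ℤ × ℤ → ℤ × ℤ := fun p => (p.1 + p.2, p.1 - p.2)
  have hφ : Function.Injective φ := by
    intro p q h
    have h1 : p.1 + p.2 = q.1 + q.2 := congrArg Prod.fst h
    have h2 : p.1 - p.2 = q.1 - q.2 := congrArg Prod.snd h
    ext <;> omega
  have h1 : ∑ p ∈ Y, f (p.1 + p.2) * g (p.1 - p.2) = ∑ q ∈ Y.image φ, f q.1 * g q.2 := by
    rw [sum_image (fun x _ y _ h => hφ h)]
  rw [h1]
  have h2 : Y.image φ ⊆ (Y.image (fun p => p.1 + p.2)) ×ˢ (Y.image (fun p => p.1 - p.2)) := by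
    intro q hq
    obtain ⟨p, hp, rfl⟩ := mem_image.mp hq
    rw [mem_product]
    exact ⟨mem_image_of_mem _ hp, mem_image_of_mem _ hp⟩
  refine (sum_le_sum_of_subset_of_nonneg h2 fun q _ _ => mul_nonneg (hf _) (hg _)).trans ?_
  rw [sum_product]
  simp_rw [← mul_sum]
  rw [← sum_mul]
  have ha : 0 ≤ a := by simpa using hA ∅
  exact mul_le_mul (hA _) (hB _) (sum_nonneg fun s _ => hg s) ha

lemma fiber_sum_le (Y : Finset (ℤ × ℤ)) (ν : ℤ × ℤ → ℝ) (hν : ∀ p, 0 ≤ ν p) (m : ℤ × ℤ → ℤ)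
    (s0 : ℤ) (A : Finset ℤ) :
    ∑ s ∈ A, (if s = s0 then 0 else ∑ p ∈ Y.filter (fun p => m p = s), ν p) ≤
      ∑ p ∈ Y.filter (fun p => m p ≠ s0), ν p := by
  have h1 : ∑ s ∈ A, (if s = s0 then 0 else ∑ p ∈ Y.filter (fun p => m p = s), ν p) =
      ∑ s ∈ A.filter (fun s => s ≠ s0), ∑ p ∈ Y.filter (fun p => m p = s), ν p := by
    rw [sum_filter]
    refine sum_congr rfl fun s _ => ?_
    by_cases h : s = s0 <;> simp [h]
  rw [h1, sum_fiberwise_eq_sum_filter]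
  apply sum_le_sum_of_subset_of_nonneg
  · intro p hp
    simp only [mem_filter] at hp ⊢
    exact ⟨hp.1, hp.2.2⟩
  · intro p _ _; exact hν p

structure Data (X : Finset ℤ) (ν : ℤ × ℤ → ℝ) (τ μU μV : ℤ → ℝ) (D I : ℝ) : Prop where
  hν0 : ∀ p, 0 ≤ ν p
  hνsum : ∑ p ∈ X ×ˢ X, ν p = 1
  hτ0 : ∀ c, 0 ≤ τ c
  hτsum : ∑ c ∈ X, τ c = 1
  hτX : ∀ c, c ∉ X → τ c = 0
  hτν : ∀ c ∈ X, 2 * τ c = ∑ b ∈ X, ν (c, b) + ∑ a ∈ X, ν (a, c)
  hμU : ∀ s, μU s = ∑ p ∈ (X ×ˢ X).filter (fun p => p.1 + p.2 = s), ν p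
  hμV : ∀ s, μV s = ∑ p ∈ (X ×ˢ X).filter (fun p => p.1 - p.2 = s), ν p
  H1 : ∑ p ∈ X ×ˢ X, (√(ν p) - √(τ p.1 * τ p.2)) ^ 2 ≤ D
  H2 : ∑ p ∈ X ×ˢ X, (√(ν p) - √(μU (p.1 + p.2) * μV (p.1 - p.2))) ^ 2 ≤ I

namespace Data

variable {X : Finset ℤ} {ν : ℤ × ℤ → ℝ} {τ μU μV : ℤ → ℝ} {D I : ℝ}

lemma D0 (h : Data X ν τ μU μV D I) : 0 ≤ D :=
  (sum_nonneg fun _ _ => sq_nonneg _).trans h.H1

lemma I0 (h : Data X ν τ μU μV D I) : 0 ≤ I :=
  (sum_nonneg fun _ _ => sq_nonneg _).trans h.H2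

lemma μU0 (h : Data X ν τ μU μV D I) (s : ℤ) : 0 ≤ μU s := by
  rw [h.hμU]; exact sum_nonneg fun p _ => h.hν0 p

lemma μV0 (h : Data X ν τ μU μV D I) (s : ℤ) : 0 ≤ μV s := by
  rw [h.hμV]; exact sum_nonneg fun p _ => h.hν0 p

/-- sparse regime -/
lemma sparse (h : Data X ν τ μU μV D I) (y : ℤ) (hy : y ∈ X) (ha : 1 - τ y ≤ 1 / 16) :
    (1 - τ y) / 5 ≤ D + I := by
  classical
  set a := 1 - τ y with hadef
  have hτy1 : τ y ≤ 1 := by
    rw [← h.hτsum]; exact single_le_sum (fun c _ => h.hτ0 c) hy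
  have ha0 : 0 ≤ a := by linarith
  -- pieces
  set Y := X ×ˢ X with hY
  set d := ∑ p ∈ Y.filter (fun p => p.1 ≠ y ∧ p.2 ≠ y), ν p with hd
  set b := ∑ p ∈ Y.filter (fun p => ¬ (p.1 ≠ y ∧ p.2 ≠ y) ∧ ¬ (p.1 = y ∧ p.2 = y)), ν p with hb
  have hd0 : 0 ≤ d := sum_nonneg fun p _ => h.hν0 p
  have hb0 : 0 ≤ b := sum_nonneg fun p _ => h.hν0 p
  have hrow : ∑ c ∈ X, ν (y, c) = ∑ p ∈ Y, if p.1 = y then ν p else 0 := by
    rw [hY, sum_product]
    symm
    rw [sum_eq_single_of_mem y hy]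
    · simp
    · intro c _ hc; simp [hc]
  have hcol : ∑ c ∈ X, ν (c, y) = ∑ p ∈ Y, if p.2 = y then ν p else 0 := by
    rw [hY, sum_product_right]
    symm
    rw [sum_eq_single_of_mem y hy]
    · simp
    · intro c _ hc; simp [hc]
  have hbd : b + 2 * d = 2 * a := by
    have h2 := h.hτν y hy
    rw [hrow, hcol] at h2
    have h3 : (2:ℝ) * a = 2 * ∑ p ∈ Y, ν p - (∑ p ∈ Y, if p.1 = y then ν p else 0)
        - ∑ p ∈ Y, if p.2 = y then ν p else 0 := by
      rw [h.hνsum, hadef]; linarith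
    rw [h3, hb, hd, sum_filter, sum_filter, mul_sum, mul_sum, ← sum_add_distrib,
      ← sum_sub_distrib, ← sum_sub_distrib]
    refine sum_congr rfl fun p _ => ?_
    by_cases e1 : p.1 = y <;> by_cases e2 : p.2 = y <;> simp [e1, e2] <;> ring
  have hbd' : ∑ p ∈ Y.filter (fun p => ¬ (p.1 = y ∧ p.2 = y)), ν p = b + d := by
    rw [hb, hd, sum_filter, sum_filter, sum_filter, ← sum_add_distrib]
    refine sum_congr rfl fun p _ => ?_
    by_cases e1 : p.1 = y <;> by_cases e2 : p.2 = y <;> simp [e1, e2]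
  have hsa : √a ≤ 1 / 4 := by
    rw [show (1:ℝ)/4 = √(1/16) by
      rw [show (1:ℝ)/16 = (1/4)^2 by norm_num, Real.sqrt_sq (by norm_num)]]
    exact Real.sqrt_le_sqrt ha
  have hsa2 := Real.sq_sqrt ha0
  have hsa0 := Real.sqrt_nonneg a
  by_cases hcase : a ≤ b
  · -- many singles
    have hkey : √b ≤ (b + d) + √I := by
      have h1 := sqrt_sum_le' Y (Y.filter (fun p => ¬ (p.1 ≠ y ∧ p.2 ≠ y) ∧ ¬ (p.1 = y ∧ p.2 = y)))
        (filter_subset _ _) ν (fun p => μU (p.1 + p.2) * μV (p.1 - p.2)) h.hν0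
        (fun p => mul_nonneg (h.μU0 _) (h.μV0 _)) I h.H2
      have h2 : ∑ p ∈ Y.filter (fun p => ¬ (p.1 ≠ y ∧ p.2 ≠ y) ∧ ¬ (p.1 = y ∧ p.2 = y)),
          μU (p.1 + p.2) * μV (p.1 - p.2) ≤ (b + d) * (b + d) := by
        have h3 := prod_le (Y.filter (fun p => ¬ (p.1 ≠ y ∧ p.2 ≠ y) ∧ ¬ (p.1 = y ∧ p.2 = y)))
          (fun s => if s = 2 * y then 0 else μU s) (fun s => if s = 0 then 0 else μV s)
          (fun s => by split_ifs; exacts [le_rfl, h.μU0 s])
          (fun s => by split_ifs; exacts [le_rfl, h.μV0 s]) (b+d) (b+d)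
          (fun A => by
            simp_rw [h.hμU]
            refine (fiber_sum_le Y ν h.hν0 (fun p => p.1 + p.2) (2*y) A).trans ?_
            rw [← hbd']
            apply sum_le_sum_of_subset_of_nonneg
            · intro p hp
              simp only [mem_filter] at hp ⊢
              refine ⟨hp.1, fun hh => hp.2 ?_⟩
              rw [hh.1, hh.2]; ring
            · intro p _ _; exact h.hν0 p)
          (fun A => by
            simp_rw [h.hμV]
            refine (fiber_sum_le Y ν h.hν0 (fun p => p.1 - p.2) 0 A).trans ?_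
            rw [← hbd']
            apply sum_le_sum_of_subset_of_nonneg
            · intro p hp
              simp only [mem_filter] at hp ⊢
              refine ⟨hp.1, fun hh => hp.2 ?_⟩
              rw [hh.1, hh.2]; ring
            · intro p _ _; exact h.hν0 p)
        refine le_trans (le_of_eq ?_) h3
        refine sum_congr rfl fun p hp => ?_
        rw [mem_filter] at hp
        have n1 : p.1 + p.2 ≠ 2 * y := by
          intro hh
          apply hp.2.1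
          constructor
          · intro e; apply hp.2.2; exact ⟨e, by omega⟩
          · intro e; apply hp.2.2; exact ⟨by omega, e⟩
        have n2 : p.1 - p.2 ≠ 0 := by
          intro hh
          apply hp.2.1
          constructor
          · intro e; apply hp.2.2; exact ⟨e, by omega⟩
          · intro e; apply hp.2.2; exact ⟨by omega, e⟩
        simp [n1, n2]
      have h4 : √(∑ p ∈ Y.filter (fun p => ¬ (p.1 ≠ y ∧ p.2 ≠ y) ∧ ¬ (p.1 = y ∧ p.2 = y)),
          μU (p.1 + p.2) * μV (p.1 - p.2)) ≤ b + d := by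
        rw [show b + d = √((b+d)*(b+d)) by rw [Real.sqrt_mul_self (by linarith)]]
        exact Real.sqrt_le_sqrt h2
      linarith
    have h5 : √a ≤ √b := Real.sqrt_le_sqrt hcase
    have h6 : b + d ≤ 2 * a := by linarith
    have h7 : √a / 2 ≤ √I := by
      have : 2 * a ≤ √a / 2 := by nlinarith
      linarith
    have h8 := Real.sq_sqrt h.I0
    have h9 : a / 4 ≤ I := by nlinarith [Real.sqrt_nonneg I]
    have := h.D0
    linarith
  · push Not at hcase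
    have hd2 : a / 2 ≤ d := by linarith
    have hkey : √d ≤ a + √D := by
      have h1 := sqrt_sum_le' Y (Y.filter (fun p => p.1 ≠ y ∧ p.2 ≠ y))
        (filter_subset _ _) ν (fun p => τ p.1 * τ p.2) h.hν0
        (fun p => mul_nonneg (h.hτ0 _) (h.hτ0 _)) D h.H1
      have h2 : ∑ p ∈ Y.filter (fun p => p.1 ≠ y ∧ p.2 ≠ y), τ p.1 * τ p.2 = a * a := by
        have h3 : Y.filter (fun p => p.1 ≠ y ∧ p.2 ≠ y) = (X.erase y) ×ˢ (X.erase y) := by
          ext p
          simp only [hY, mem_filter, mem_product, mem_erase]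
          tauto
        rw [h3, sum_product]
        simp_rw [← mul_sum]
        rw [← sum_mul]
        have h4 : ∑ c ∈ X.erase y, τ c = a := by
          have := add_sum_erase X τ hy
          rw [h.hτsum] at this
          rw [hadef]; linarith
        rw [h4]
      rw [h2, Real.sqrt_mul_self ha0] at h1
      exact h1
    have h5 : √(a/2) ≤ √d := Real.sqrt_le_sqrt hd2
    have h6 : √a * (7/10) ≤ √(a/2) := by
      rw [show √a * (7/10) = √(a * (49/100)) by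
        rw [Real.sqrt_mul ha0, show (49:ℝ)/100 = (7/10)^2 by norm_num, Real.sqrt_sq (by norm_num)]]
      apply Real.sqrt_le_sqrt; linarith
    have h7 : √a * (45/100) ≤ √D := by
      have : a ≤ √a * (25/100) := by nlinarith
      linarith
    have h8 := Real.sq_sqrt h.D0
    have h9 : a / 5 ≤ D := by nlinarith [Real.sqrt_nonneg D]
    have := h.I0
    linarith

/-- dense regime -/
lemma dense (h : Data X ν τ μU μV D I) (y : ℤ) (hy : y ∈ X) (hmax : ∀ c ∈ X, τ c ≤ τ y) :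
    (τ y) ^ 2 * (1 - τ y) / 70 ≤ √(D + I) := by
  classical
  set p := τ y with hp
  have hp1 : p ≤ 1 := by
    rw [← h.hτsum]; exact single_le_sum (fun c _ => h.hτ0 c) hy
  have hp0 : 0 < p := by
    by_contra hneg
    push Not at hneg
    have : ∑ c ∈ X, τ c ≤ 0 := sum_nonpos fun c hc => (hmax c hc).trans hneg
    rw [h.hτsum] at this
    linarith
  have hmax' : ∀ c, τ c ≤ p := by
    intro c
    by_cases hc : c ∈ X
    · exact hmax c hc
    · rw [h.hτX c hc]; exact hp0.le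
  set e := √(D + I) with he
  have he0 : 0 ≤ e := Real.sqrt_nonneg _
  have hDe : √D ≤ e := Real.sqrt_le_sqrt (by linarith [h.I0])
  have hIe : √I ≤ e := Real.sqrt_le_sqrt (by linarith [h.D0])
  by_cases he1 : 1 < e
  · have : p ^ 2 * (1 - p) / 70 ≤ 1 := by
      have : p^2 ≤ 1 := by nlinarith
      nlinarith [sq_nonneg p]
    linarith
  push Not at he1
  set Y := X ×ˢ X with hY
  set Q := ∑ c ∈ X, τ c ^ 2 with hQ
  have hQp : Q ≤ p := by
    calc Q ≤ ∑ c ∈ X, p * τ c := by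
          apply sum_le_sum; intro c _; nlinarith [hmax' c, h.hτ0 c]
      _ = p := by rw [← mul_sum, h.hτsum, mul_one]
  have hQ0 : 0 ≤ Q := sum_nonneg fun c _ => sq_nonneg _
  -- diagonal bound
  have hB : √(μV 0) ≤ √Q + e := by
    have h1 := sqrt_sum_le' Y (Y.filter (fun q => q.1 - q.2 = 0))
        (filter_subset _ _) ν (fun q => τ q.1 * τ q.2) h.hν0
        (fun q => mul_nonneg (h.hτ0 _) (h.hτ0 _)) D h.H1
    rw [← h.hμV 0] at h1
    have h2 : ∑ q ∈ Y.filter (fun q => q.1 - q.2 = 0), τ q.1 * τ q.2 = Q := by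
      rw [sum_filter, hY, sum_product, hQ]
      refine sum_congr rfl fun c hc => ?_
      rw [sum_eq_single_of_mem c hc]
      · simp; ring
      · intro b _ hb
        have : c - b ≠ 0 := fun hh => hb (by omega)
        simp [this]
    rw [h2] at h1
    linarith
  -- antidiagonal
  have hR : ∀ y0 : ℤ, √(μU (2 * y0)) ≤ √(∑ c ∈ X, τ c * τ (2 * y0 - c)) + e := by
    intro y0
    have h1 := sqrt_sum_le' Y (Y.filter (fun q => q.1 + q.2 = 2 * y0))
        (filter_subset _ _) ν (fun q => τ q.1 * τ q.2) h.hν0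
        (fun q => mul_nonneg (h.hτ0 _) (h.hτ0 _)) D h.H1
    rw [← h.hμU (2 * y0)] at h1
    have h2 : ∑ q ∈ Y.filter (fun q => q.1 + q.2 = 2 * y0), τ q.1 * τ q.2 =
        ∑ c ∈ X, τ c * τ (2 * y0 - c) := by
      rw [sum_filter, hY, sum_product]
      refine sum_congr rfl fun c hc => ?_
      by_cases hm : 2 * y0 - c ∈ X
      · rw [sum_eq_single_of_mem _ hm]
        · simp
        · intro b _ hb
          have : c + b ≠ 2 * y0 := fun hh => hb (by omega)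
          simp [this]
      · rw [h.hτX _ hm, mul_zero]
        apply sum_eq_zero
        intro b hb
        have : c + b ≠ 2 * y0 := fun hh => hm (by
          have : 2 * y0 - c = b := by omega
          rw [this]; exact hb)
        simp [this]
    rw [h2] at h1
    linarith
  -- point bound
  have hpt : ∀ y0 ∈ X, τ y0 ≤ √(μU (2*y0)) * √(μV 0) + 2 * e := by
    intro y0 hy0
    have hm : ((y0, y0) : ℤ × ℤ) ∈ Y := by rw [hY, mem_product]; exact ⟨hy0, hy0⟩
    have h1 : (√(ν (y0,y0)) - √(τ y0 * τ y0)) ^ 2 ≤ D := by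
      refine le_trans ?_ h.H1
      exact single_le_sum (f := fun q : ℤ × ℤ => (√(ν q) - √(τ q.1 * τ q.2)) ^ 2)
        (fun q _ => sq_nonneg _) hm
    have h2 : (√(ν (y0,y0)) - √(μU (y0+y0) * μV (y0-y0))) ^ 2 ≤ I := by
      refine le_trans ?_ h.H2
      exact single_le_sum
        (f := fun q : ℤ × ℤ => (√(ν q) - √(μU (q.1+q.2) * μV (q.1-q.2))) ^ 2)
        (fun q _ => sq_nonneg _) hm
    rw [Real.sqrt_mul_self (h.hτ0 y0)] at h1
    rw [show y0 + y0 = 2 * y0 by ring, show y0 - y0 = 0 by ring, Real.sqrt_mul (h.μU0 _)] at h2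
    have h3 : |√(ν (y0,y0)) - τ y0| ≤ √D := Real.abs_le_sqrt h1
    have h4 : |√(ν (y0,y0)) - √(μU (2*y0)) * √(μV 0)| ≤ √I := Real.abs_le_sqrt h2
    have h5 := (abs_le.mp h3).1
    have h6 := (abs_le.mp h4).2
    linarith
  have hR1 : ∀ y0 : ℤ, ∑ c ∈ X, τ c * τ (2 * y0 - c) ≤ p := by
    intro y0
    calc ∑ c ∈ X, τ c * τ (2 * y0 - c) ≤ ∑ c ∈ X, τ c * p := by
          apply sum_le_sum; intro c _
          exact mul_le_mul_of_nonneg_left (hmax' _) (h.hτ0 c)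
      _ = p := by rw [← sum_mul, h.hτsum, one_mul]
  have hR0 : ∀ y0 : ℤ, 0 ≤ ∑ c ∈ X, τ c * τ (2 * y0 - c) := fun y0 =>
    sum_nonneg fun c _ => mul_nonneg (h.hτ0 _) (h.hτ0 _)
  have hsq1 : ∀ r : ℝ, r ≤ p → √r ≤ 1 := by
    intro r hr
    exact Real.sqrt_le_one.mpr (by linarith)
  have hmain : ∀ y0 ∈ X, τ y0 - 5 * e ≤ √(∑ c ∈ X, τ c * τ (2 * y0 - c)) * √Q := by
    intro y0 hy0
    have h1 := hpt y0 hy0
    have h2 := hR y0
    set R := ∑ c ∈ X, τ c * τ (2 * y0 - c) with hRdef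
    have h3 : √(μU (2*y0)) * √(μV 0) ≤ (√R + e) * (√Q + e) :=
      mul_le_mul h2 hB (Real.sqrt_nonneg _) (by positivity)
    have h4 : √R ≤ 1 := hsq1 R (hR1 y0)
    have h5 : √Q ≤ 1 := hsq1 Q hQp
    nlinarith [Real.sqrt_nonneg R, Real.sqrt_nonneg Q]
  have hsQ : √Q ^ 2 = Q := Real.sq_sqrt hQ0
  have hQle : √Q ≤ √p := Real.sqrt_le_sqrt hQp
  have hsp : √p ^ 2 = p := Real.sq_sqrt hp0.le
  -- R ≤ Q
  have hRQ : ∀ y0 : ℤ, ∑ c ∈ X, τ c * τ (2 * y0 - c) ≤ Q := by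
    intro y0
    have h1 : ∑ c ∈ X, τ (2 * y0 - c) ^ 2 ≤ Q := by
      have h2 : ∑ c ∈ X, τ (2 * y0 - c) ^ 2 = ∑ b ∈ X.image (fun c => 2 * y0 - c), τ b ^ 2 := by
        rw [sum_image]
        intro a _ b _ hab
        have : 2 * y0 - a = 2 * y0 - b := hab
        omega
      rw [h2]
      have h3 : ∑ b ∈ X.image (fun c => 2 * y0 - c), τ b ^ 2 =
          ∑ b ∈ (X.image (fun c => 2 * y0 - c)).filter (fun b => b ∈ X), τ b ^ 2 := by
        rw [sum_filter]
        refine sum_congr rfl fun b _ => ?_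
        by_cases hb : b ∈ X
        · simp [hb]
        · simp [hb, h.hτX b hb]
      rw [h3, hQ]
      apply sum_le_sum_of_subset_of_nonneg
      · intro b hb; exact (mem_filter.mp hb).2
      · intro b _ _; exact sq_nonneg _
    have h2 : ∑ c ∈ X, τ c * τ (2 * y0 - c) ≤ ∑ c ∈ X, (τ c ^ 2 + τ (2 * y0 - c) ^ 2) / 2 := by
      apply sum_le_sum
      intro c _
      nlinarith [sq_nonneg (τ c - τ (2 * y0 - c))]
    have h3 : ∑ c ∈ X, (τ c ^ 2 + τ (2 * y0 - c) ^ 2) / 2 =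
        (Q + ∑ c ∈ X, τ (2 * y0 - c) ^ 2) / 2 := by
      rw [← sum_div, sum_add_distrib]
    linarith
  -- (1)
  have e1 : p - Q ≤ 5 * e := by
    have h1 := hmain y hy
    have h2 : √(∑ c ∈ X, τ c * τ (2 * y - c)) ≤ √Q := Real.sqrt_le_sqrt (hRQ y)
    have h3 : √(∑ c ∈ X, τ c * τ (2 * y - c)) * √Q ≤ √Q * √Q :=
      mul_le_mul_of_nonneg_right h2 (Real.sqrt_nonneg _)
    nlinarith
  have e1' : ∑ c ∈ X, τ c * (p - τ c) = p - Q := by
    rw [hQ]
    calc ∑ c ∈ X, τ c * (p - τ c) = ∑ c ∈ X, (p * τ c - τ c ^ 2) :=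
          sum_congr rfl fun c _ => by ring
      _ = p * ∑ c ∈ X, τ c - ∑ c ∈ X, τ c ^ 2 := by rw [sum_sub_distrib, mul_sum]
      _ = _ := by rw [h.hτsum, mul_one]
  -- big atoms
  set Sb := X.filter (fun c => p / 2 ≤ τ c) with hSb
  have hyS : y ∈ Sb := by rw [hSb, mem_filter]; exact ⟨hy, by linarith⟩
  obtain ⟨y0, hy0S, hy0max⟩ := Sb.exists_max_image id ⟨y, hyS⟩
  simp only [id] at hy0max
  have hy0X : y0 ∈ X := (mem_filter.mp hy0S).1
  have hy0p : p / 2 ≤ τ y0 := (mem_filter.mp hy0S).2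
  have e2 : p * (p - τ y0) ≤ 10 * e := by
    have h1 : τ y0 * (p - τ y0) ≤ ∑ c ∈ X, τ c * (p - τ c) :=
      single_le_sum (f := fun c => τ c * (p - τ c))
        (fun c _ => mul_nonneg (h.hτ0 c) (by linarith [hmax' c])) hy0X
    have h2 : p / 2 * (p - τ y0) ≤ τ y0 * (p - τ y0) :=
      mul_le_mul_of_nonneg_right hy0p (by linarith [hmax' y0])
    linarith
  set R := ∑ c ∈ X, τ c * τ (2 * y0 - c) with hRdef
  have e3 : p * (p - R) ≤ 30 * e := by
    have h1 := hmain y0 hy0X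
    rw [← hRdef] at h1
    have hsR : √R ^ 2 = R := Real.sq_sqrt (hR0 y0)
    -- p(τ y0 - 5e) ≥ p^2 - 15 e
    have h2 : p * p - 15 * e ≤ p * (√R * √Q) := by
      have : p * (τ y0 - 5 * e) ≤ p * (√R * √Q) := mul_le_mul_of_nonneg_left h1 hp0.le
      nlinarith
    have h3 : √R * √Q ≤ √R * √p := mul_le_mul_of_nonneg_left hQle (Real.sqrt_nonneg _)
    -- √R √p ≥ p - 15e/p;   (√R)(√p) ≤ (R + p)/2
    have h4 : √R * √p ≤ (R + p) / 2 := by nlinarith [sq_nonneg (√R - √p)]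
    nlinarith
  have e3' : ∑ c ∈ X, τ c * (p - τ (2 * y0 - c)) = p - R := by
    rw [hRdef]
    calc ∑ c ∈ X, τ c * (p - τ (2 * y0 - c)) = ∑ c ∈ X, (p * τ c - τ c * τ (2*y0 - c)) :=
          sum_congr rfl fun c _ => by ring
      _ = p * ∑ c ∈ X, τ c - ∑ c ∈ X, τ c * τ (2*y0 - c) := by rw [sum_sub_distrib, mul_sum]
      _ = _ := by rw [h.hτsum, mul_one]
  -- each c ≠ y0 contributes
  have e4 : ∀ c ∈ X, c ≠ y0 → τ c * (p / 2) ≤ τ c * (p - τ c) + τ c * (p - τ (2 * y0 - c)) := by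
    intro c hc hne
    have hc0 := h.hτ0 c
    have n1 : 0 ≤ p - τ c := by linarith [hmax' c]
    have n2 : 0 ≤ p - τ (2 * y0 - c) := by linarith [hmax' (2 * y0 - c)]
    by_cases hcS : c ∈ Sb
    · have h1 : c < y0 := lt_of_le_of_ne (hy0max c hcS) hne
      have h2 : (2 * y0 - c) ∉ Sb := by
        intro hh
        have := hy0max _ hh
        omega
      have h3 : τ (2 * y0 - c) ≤ p / 2 := by
        by_cases hX : 2 * y0 - c ∈ X
        · by_contra hlt
          push Not at hlt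
          exact h2 (mem_filter.mpr ⟨hX, hlt.le⟩)
        · rw [h.hτX _ hX]; linarith
      have : τ c * (p/2) ≤ τ c * (p - τ (2 * y0 - c)) :=
        mul_le_mul_of_nonneg_left (by linarith) hc0
      have := mul_nonneg hc0 n1
      linarith
    · have h3 : τ c ≤ p / 2 := by
        by_contra hlt
        push Not at hlt
        exact hcS (mem_filter.mpr ⟨hc, hlt.le⟩)
      have : τ c * (p/2) ≤ τ c * (p - τ c) :=
        mul_le_mul_of_nonneg_left (by linarith) hc0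
      have := mul_nonneg hc0 n2
      linarith
  have e5 : (1 - τ y0) * (p / 2) ≤ (p - Q) + (p - R) := by
    rw [← e1', ← e3', ← sum_add_distrib]
    have h1 : (1 - τ y0) * (p/2) = ∑ c ∈ X.erase y0, τ c * (p/2) := by
      rw [← sum_mul]
      congr 1
      have := add_sum_erase X τ hy0X
      rw [h.hτsum] at this
      linarith
    rw [h1]
    calc ∑ c ∈ X.erase y0, τ c * (p/2)
        ≤ ∑ c ∈ X.erase y0, (τ c * (p - τ c) + τ c * (p - τ (2 * y0 - c))) := by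
          apply sum_le_sum
          intro c hc
          rw [mem_erase] at hc
          exact e4 c hc.2 hc.1
      _ ≤ ∑ c ∈ X, (τ c * (p - τ c) + τ c * (p - τ (2 * y0 - c))) := by
          apply sum_le_sum_of_subset_of_nonneg (erase_subset _ _)
          intro c _ _
          have := mul_nonneg (h.hτ0 c) (by linarith [hmax' c] : 0 ≤ p - τ c)
          have := mul_nonneg (h.hτ0 c) (by linarith [hmax' (2*y0-c)] : 0 ≤ p - τ (2*y0-c))
          linarith
  have e6 : (1 - p) * (p / 2) ≤ 5 * e + (p - R) := by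
    have : (1 - p) * (p/2) ≤ (1 - τ y0) * (p/2) :=
      mul_le_mul_of_nonneg_right (by linarith [hmax' y0]) (by linarith)
    linarith
  have e7 : p * ((1 - p) * (p / 2)) ≤ 35 * e := by
    have h1 : p * ((1 - p) * (p / 2)) ≤ p * (5 * e + (p - R)) :=
      mul_le_mul_of_nonneg_left e6 hp0.le
    nlinarith
  nlinarith

/-- Quantitative form: `Y₁,Y₂` nearly i.i.d. and `U,V` nearly independent forces concentration. -/
theorem gain (h : Data X ν τ μU μV D I) (y : ℤ) (hy : y ∈ X) (hmax : ∀ c ∈ X, τ c ≤ τ y) :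
    (τ y) ^ 4 * (1 - τ y) / 78400 ≤ D + I := by
  have hp1 : τ y ≤ 1 := by
    rw [← h.hτsum]; exact single_le_sum (fun c _ => h.hτ0 c) hy
  have hp0 := h.hτ0 y
  have hDI : 0 ≤ D + I := add_nonneg h.D0 h.I0
  have hp4 : (τ y)^4 ≤ 1 := pow_le_one₀ hp0 hp1
  have hp40 : 0 ≤ (τ y)^4 := by positivity
  by_cases hc : 1 - τ y ≤ 1/16
  · have := h.sparse y hy hc
    have h2 : (τ y)^4 * (1 - τ y) ≤ 1 * (1 - τ y) :=
      mul_le_mul_of_nonneg_right hp4 (by linarith)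
    linarith
  · push Not at hc
    have h1 := h.dense y hy hmax
    have h2 := Real.sq_sqrt hDI
    have h3 : 0 ≤ (τ y) ^ 2 * (1 - τ y) / 70 := by
      apply div_nonneg _ (by norm_num)
      exact mul_nonneg (by positivity) (by linarith)
    have h4 : ((τ y) ^ 2 * (1 - τ y) / 70)^2 ≤ D + I := by
      rw [← h2]; exact pow_le_pow_left₀ h3 h1 2
    have h5 : (τ y)^4 * (1 - τ y) / 78400 ≤ ((τ y) ^ 2 * (1 - τ y) / 70)^2 := by
      have : ((τ y) ^ 2 * (1 - τ y) / 70)^2 = (τ y)^4 * (1 - τ y) * ((1 - τ y) / 4900) := by ring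
      rw [this]
      have h6 : (1:ℝ)/78400 ≤ (1 - τ y)/4900 := by
        rw [div_le_div_iff₀ (by norm_num) (by norm_num)]; linarith
      have h7 : 0 ≤ (τ y)^4 * (1 - τ y) := mul_nonneg hp40 (by linarith)
      calc (τ y)^4 * (1 - τ y) / 78400 = (τ y)^4 * (1 - τ y) * (1/78400) := by ring
        _ ≤ _ := mul_le_mul_of_nonneg_left h6 h7
    linarith

end Data

end Pool.Agent.Helper31.GB
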