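import Mathlib

set_option autoImplicit false

namespace Pool.Agent.Helper31.GB

open Finset

/-- Number of indices carrying the same value as `a`. -/
noncomputable def cnt {α κ : Type} [Fintype α] [DecidableEq κ] (w : α → κ) (a : α) : ℕ :=
  (univ.filter (fun b => w b = w a)).card

/-- Empirical entropy of the word `w` times its length. -/
noncomputable def S {α κ : Type} [Fintype α] [DecidableEq κ] (w : α → κ) : ℝ :=
  ∑ a, Real.log ((Fintype.card α : ℝ) / cnt w a)

section basic

variable {α κ : Type} [Fintype α] [DecidableEq κ]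

lemma cnt_pos (w : α → κ) (a : α) : 0 < cnt w a := by
  unfold cnt
  exact card_pos.mpr ⟨a, by simp⟩

lemma cnt_le (w : α → κ) (a : α) : cnt w a ≤ Fintype.card α := by
  unfold cnt
  exact card_le_univ _

lemma card_pos' (a : α) : 0 < Fintype.card α := Fintype.card_pos_iff.mpr ⟨a⟩

lemma S_nonneg (w : α → κ) : 0 ≤ S w := by
  unfold S
  refine sum_nonneg fun a _ => Real.log_nonneg ?_
  rw [le_div_iff₀ (by exact_mod_cast cnt_pos w a), one_mul]
  exact_mod_cast cnt_le w a

lemma exp_neg_S (w : α → κ) :
    Real.exp (-(S w)) = ∏ a, ((cnt w a : ℝ) / Fintype.card α) := by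
  unfold S
  rw [← sum_neg_distrib, Real.exp_sum]
  refine prod_congr rfl fun a _ => ?_
  have h1 : (0:ℝ) < cnt w a := by exact_mod_cast cnt_pos w a
  have h2 : (0:ℝ) < Fintype.card α := by exact_mod_cast card_pos' a
  rw [← Real.log_inv, inv_div, Real.exp_log (by positivity)]

lemma cnt_comp_perm (w : α → κ) (P : Equiv.Perm α) (a : α) :
    cnt (w ∘ P) a = cnt w (P a) := by
  classical
  unfold cnt
  refine card_bij (fun b _ => P b) ?_ ?_ ?_
  · intro b hb; simpa using hb
  · intro b _ c _ h; exact P.injective h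
  · intro b hb
    refine ⟨P.symm b, ?_, by simp⟩
    simpa using hb

lemma S_comp_perm (w : α → κ) (P : Equiv.Perm α) : S (w ∘ P) = S w := by
  unfold S
  simp_rw [cnt_comp_perm]
  exact Equiv.sum_comp P (fun a => Real.log ((Fintype.card α : ℝ) / cnt w a))

/-- Composing with an injective map on values does not change the entropy. -/
lemma S_comp_inj {κ' : Type} [DecidableEq κ'] (w : α → κ) (g : κ → κ')
    (hg : Function.Injective g) : S (fun a => g (w a)) = S w := by
  unfold S cnt
  simp [hg.eq_iff]

end basic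

section factorial

lemma factorial_lower (n : ℕ) : ((n:ℝ) / Real.exp 1) ^ n ≤ (n.factorial : ℝ) := by
  have h := Real.pow_div_factorial_le_exp (n:ℝ) (by positivity) n
  have hf : (0:ℝ) < n.factorial := by exact_mod_cast n.factorial_pos
  rw [div_le_iff₀ hf] at h
  rw [div_pow, div_le_iff₀ (by positivity)]
  calc (n:ℝ)^n ≤ Real.exp n * n.factorial := h
    _ = n.factorial * Real.exp 1 ^ n := by
        rw [← Real.exp_nat_mul, mul_one]; ring

lemma factorial_upper' (n : ℕ) (hn1 : 1 ≤ n) :
    (n.factorial : ℝ) ≤ Real.exp 1 * n * ((n:ℝ) / Real.exp 1) ^ n := by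
  induction n, hn1 using Nat.le_induction with
  | base => simp
  | succ n hpos ih =>
    have hn : (0:ℝ) < n := by exact_mod_cast hpos
    have he : (0:ℝ) < Real.exp 1 := Real.exp_pos 1
    have key : Real.exp 1 * (n:ℝ) ^ (n+1) ≤ ((n:ℝ)+1) ^ (n+1) := by
      have h1 : 1 ≤ ((n:ℝ)+1) * Real.log (((n:ℝ)+1)/n) := by
        have h2 : Real.log ((n:ℝ)/((n:ℝ)+1)) ≤ (n:ℝ)/((n:ℝ)+1) - 1 :=
          Real.log_le_sub_one_of_pos (by positivity)
        have h3 : Real.log (((n:ℝ)+1)/n) = - Real.log ((n:ℝ)/((n:ℝ)+1)) := by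
          rw [← Real.log_inv, inv_div]
        rw [h3]
        have h4 : 1 - (n:ℝ)/((n:ℝ)+1) ≤ - Real.log ((n:ℝ)/((n:ℝ)+1)) := by linarith
        have h5 : ((n:ℝ)+1) * (1 - (n:ℝ)/((n:ℝ)+1)) = 1 := by field_simp; ring
        calc (1:ℝ) = ((n:ℝ)+1) * (1 - (n:ℝ)/((n:ℝ)+1)) := h5.symm
          _ ≤ _ := by apply mul_le_mul_of_nonneg_left h4 (by positivity)
      have h6 : Real.exp 1 ≤ (((n:ℝ)+1)/n) ^ (n+1) := by
        rw [← Real.log_le_log_iff he (by positivity), Real.log_exp, Real.log_pow]
        push_cast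
        exact h1
      calc Real.exp 1 * (n:ℝ) ^ (n+1) ≤ (((n:ℝ)+1)/n) ^ (n+1) * (n:ℝ) ^ (n+1) := by
            apply mul_le_mul_of_nonneg_right h6 (by positivity)
        _ = ((n:ℝ)+1) ^ (n+1) := by
            rw [← mul_pow]; congr 1; field_simp
    have hfac : ((n+1).factorial : ℝ) = ((n:ℝ)+1) * n.factorial := by
      rw [Nat.factorial_succ]; push_cast; ring
    rw [hfac]
    push_cast
    calc ((n:ℝ)+1) * n.factorial ≤ ((n:ℝ)+1) * (Real.exp 1 * n * ((n:ℝ) / Real.exp 1) ^ n) := by
          apply mul_le_mul_of_nonneg_left ih (by positivity)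
      _ = ((n:ℝ)+1) * (Real.exp 1 * (n:ℝ)^(n+1)) / Real.exp 1 ^ n := by
          rw [div_pow]; ring
      _ ≤ ((n:ℝ)+1) * ((n:ℝ)+1) ^ (n+1) / Real.exp 1 ^ n := by
          apply div_le_div_of_nonneg_right _ (by positivity)
          apply mul_le_mul_of_nonneg_left key (by positivity)
      _ = Real.exp 1 * ((n:ℝ) + 1) * (((n:ℝ) + 1) / Real.exp 1) ^ (n + 1) := by
          rw [div_pow, pow_succ (Real.exp 1) n]
          field_simp

lemma factorial_upper (n : ℕ) :
    (n.factorial : ℝ) ≤ Real.exp 1 * (n + 1) * ((n:ℝ) / Real.exp 1) ^ n := by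
  rcases Nat.eq_zero_or_pos n with h0 | hpos
  · subst h0
    simp
  · refine (factorial_upper' n hpos).trans ?_
    apply mul_le_mul_of_nonneg_right _ (by positivity)
    apply mul_le_mul_of_nonneg_left _ (by positivity)
    linarith

end factorial

section perms

variable {α κ : Type} [Fintype α] [DecidableEq α] [DecidableEq κ]

/-- The number of permutations taking `w` to a prescribed rearrangement. -/
lemma perm_card_le (w w' : α → κ) :
    (univ.filter (fun P : Equiv.Perm α => w ∘ P = w')).card ≤
      ∏ c ∈ univ.image w, ((univ.filter (fun a => w a = c)).card).factorial := by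
  by_cases hex : ∃ P0 : Equiv.Perm α, w ∘ P0 = w'
  · obtain ⟨P0, hP0⟩ := hex
    have h1 : (univ.filter (fun P : Equiv.Perm α => w ∘ P = w')).card =
        Fintype.card {g : Equiv.Perm α // w ∘ g = w} := by
      rw [Fintype.card_subtype]
      refine card_bij (fun P _ => P * P0⁻¹) ?_ ?_ ?_
      · intro P hP
        simp only [mem_filter, mem_univ, true_and] at hP ⊢
        funext a
        have := congrFun (hP.trans hP0.symm) (P0⁻¹ a)
        simpa using this
      · intro P _ Q _ h
        exact mul_right_cancel h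
      · intro g hg
        simp only [mem_filter, mem_univ, true_and] at hg
        refine ⟨g * P0, ?_, by simp⟩
        simp only [mem_filter, mem_univ, true_and]
        funext a
        have := congrFun hg (P0 a)
        simp only [Function.comp] at this ⊢
        rw [← hP0]
        simpa using this
    rw [h1, DomMulAct.stabilizer_card' w]
    apply le_of_eq
    refine prod_congr rfl fun c _ => ?_
    rw [Fintype.card_subtype]
  · have : (univ.filter (fun P : Equiv.Perm α => w ∘ P = w')) = ∅ := by
      rw [filter_eq_empty_iff]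
      intro P _ hP
      exact hex ⟨P, hP⟩
    rw [this, card_empty]
    exact Nat.zero_le _

/-- Polynomial factor. -/
noncomputable def pf (n k : ℕ) : ℝ := (Real.exp 1 * (n + 1)) ^ k

lemma pf_pos (n k : ℕ) : 0 < pf n k := by unfold pf; positivity

lemma perm_card_le_real (w w' : α → κ) (k : ℕ) (hk : (univ.image w).card ≤ k) :
    ((univ.filter (fun P : Equiv.Perm α => w ∘ P = w')).card : ℝ) ≤
      (Fintype.card α).factorial * (pf (Fintype.card α) k * Real.exp (-(S w))) := by
  set n := Fintype.card α with hn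
  have hE : (1:ℝ) ≤ Real.exp 1 * (n + 1) := by
    have : (1:ℝ) ≤ Real.exp 1 := Real.one_le_exp (by norm_num)
    nlinarith [Nat.cast_nonneg (α := ℝ) n]
  have h1 : ((univ.filter (fun P : Equiv.Perm α => w ∘ P = w')).card : ℝ) ≤
      ∏ c ∈ univ.image w, (((univ.filter (fun a => w a = c)).card).factorial : ℝ) := by
    exact_mod_cast perm_card_le w w'
  refine h1.trans ?_
  have h2 : ∏ c ∈ univ.image w, (((univ.filter (fun a => w a = c)).card).factorial : ℝ) ≤
      ∏ c ∈ univ.image w, ((Real.exp 1 * (n + 1)) *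
        (((univ.filter (fun a => w a = c)).card : ℝ) / Real.exp 1) ^
          (univ.filter (fun a => w a = c)).card) := by
    apply prod_le_prod
    · intro c _; positivity
    · intro c _
      refine (factorial_upper _).trans ?_
      apply mul_le_mul_of_nonneg_right _ (by positivity)
      apply mul_le_mul_of_nonneg_left _ (by positivity)
      have : (univ.filter (fun a => w a = c)).card ≤ n := by rw [hn]; exact card_le_univ _
      have : ((univ.filter (fun a => w a = c)).card : ℝ) ≤ n := by exact_mod_cast this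
      linarith
  refine h2.trans ?_
  rw [prod_mul_distrib, prod_const]
  have h3 : ∏ c ∈ univ.image w, (((univ.filter (fun a => w a = c)).card : ℝ) / Real.exp 1) ^
          (univ.filter (fun a => w a = c)).card = ∏ a, ((cnt w a : ℝ) / Real.exp 1) := by
    unfold cnt
    rw [← prod_comp (fun c => ((univ.filter (fun a => w a = c)).card : ℝ) / Real.exp 1) w]
  rw [h3]
  have h4 : (∏ a, ((cnt w a : ℝ) / Real.exp 1)) =
      ((n:ℝ) / Real.exp 1) ^ n * Real.exp (-(S w)) := by
    rw [exp_neg_S]
    have : ((n:ℝ) / Real.exp 1) ^ n = ∏ _a : α, ((n:ℝ) / Real.exp 1) := by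
      rw [prod_const, card_univ]
    rw [this, ← prod_mul_distrib]
    refine prod_congr rfl fun a _ => ?_
    have h5 : (0:ℝ) < n := by exact_mod_cast card_pos' a
    rw [← hn]
    field_simp
  rw [h4]
  have h6 : (Real.exp 1 * ((n:ℝ) + 1)) ^ (univ.image w).card ≤ pf n k := by
    unfold pf
    exact pow_le_pow_right₀ hE hk
  have h7 := factorial_lower n
  have hS := Real.exp_pos (-(S w))
  calc (Real.exp 1 * ((n:ℝ) + 1)) ^ (univ.image w).card *
        (((n:ℝ) / Real.exp 1) ^ n * Real.exp (-(S w)))
      ≤ pf n k * ((n.factorial : ℝ) * Real.exp (-(S w))) := by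
        apply mul_le_mul h6 _ (by positivity) (pf_pos n k).le
        apply mul_le_mul_of_nonneg_right h7 hS.le
    _ = _ := by ring

/-- Averages over permutations are controlled by sums over the orbit. -/
lemma avg_le (w : α → κ) (k : ℕ) (hk : (univ.image w).card ≤ k) (f : (α → κ) → ℝ)
    (hf : ∀ v, 0 ≤ f v) :
    (∑ P : Equiv.Perm α, f (w ∘ P)) / (Fintype.card α).factorial ≤
      pf (Fintype.card α) k * Real.exp (-(S w)) *
        ∑ v ∈ univ.image (fun P : Equiv.Perm α => w ∘ P), f v := by
  have hfac : (0:ℝ) < (Fintype.card α).factorial := by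
    exact_mod_cast (Fintype.card α).factorial_pos
  rw [div_le_iff₀ hfac]
  rw [sum_comp f (fun P : Equiv.Perm α => w ∘ P)]
  rw [mul_sum, sum_mul]
  apply sum_le_sum
  intro v _
  have h := perm_card_le_real w v k hk
  rw [nsmul_eq_mul]
  calc ((univ.filter (fun P : Equiv.Perm α => w ∘ P = v)).card : ℝ) * f v
      ≤ ((Fintype.card α).factorial * (pf (Fintype.card α) k * Real.exp (-(S w)))) * f v :=
        mul_le_mul_of_nonneg_right h (hf v)
    _ = _ := by ring

end perms

section types

variable {ι κ : Type} [Fintype ι] [DecidableEq ι] [DecidableEq κ]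

/-- Sum of `exp (-S z)` over words on a finite alphabet is at most the number of types. -/
lemma sum_exp_neg_S_le (Y : Finset κ) (F : Finset (ι → κ)) (hF : ∀ z ∈ F, ∀ i, z i ∈ Y) :
    ∑ z ∈ F, Real.exp (-(S z)) ≤ ((Fintype.card ι : ℝ) + 1) ^ Y.card := by
  classical
  set M := Fintype.card ι with hM
  -- the type of a word
  let T : (ι → κ) → (κ → ℕ) := fun z y => if y ∈ Y then (univ.filter (fun i => z i = y)).card else 0
  have h1 : ∑ z ∈ F, Real.exp (-(S z)) =
      ∑ t ∈ F.image T, ∑ z ∈ F.filter (fun z => T z = t), Real.exp (-(S z)) := by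
    exact (sum_fiberwise_of_maps_to (fun z hz => mem_image_of_mem T hz) _).symm
  rw [h1]
  have h2 : ∀ t ∈ F.image T, ∑ z ∈ F.filter (fun z => T z = t), Real.exp (-(S z)) ≤ 1 := by
    intro t ht
    obtain ⟨z0, hz0, rfl⟩ := mem_image.mp ht
    have h3 : ∀ z ∈ F.filter (fun z => T z = T z0), Real.exp (-(S z)) =
        ∏ i, ((T z0 (z i) : ℝ) / M) := by
      intro z hz
      rw [mem_filter] at hz
      rw [exp_neg_S]
      refine prod_congr rfl fun i _ => ?_
      rw [← hz.2]
      simp only [T, hF z hz.1 i, if_true]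
      rfl
    rw [sum_congr rfl h3]
    have h4 : ∑ z ∈ F.filter (fun z => T z = T z0), ∏ i, ((T z0 (z i) : ℝ) / M) ≤
        ∑ z ∈ Fintype.piFinset (fun _ : ι => Y), ∏ i, ((T z0 (z i) : ℝ) / M) := by
      apply sum_le_sum_of_subset_of_nonneg
      · intro z hz
        rw [mem_filter] at hz
        rw [Fintype.mem_piFinset]
        exact hF z hz.1
      · intro z _ _
        exact prod_nonneg fun i _ => by positivity
    refine h4.trans ?_
    rw [← prod_univ_sum (fun _ : ι => Y) (fun _ y => ((T z0 y : ℝ) / M))]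
    rw [prod_const, ← sum_div]
    have h5 : ∑ y ∈ Y, (T z0 y : ℝ) = M := by
      have : ∑ y ∈ Y, T z0 y = M := by
        rw [hM, ← card_univ, card_eq_sum_card_fiberwise (f := z0) (t := Y)]
        · refine sum_congr rfl fun y hy => ?_
          simp only [T, hy, if_true]
        · intro i _; exact hF z0 hz0 i
      exact_mod_cast this
    rw [h5]
    rcases Nat.eq_zero_or_pos M with h0 | hpos
    · rw [card_univ, ← hM, h0]; simp
    · rw [div_self (by positivity : (M:ℝ) ≠ 0), one_pow]
  refine (sum_le_sum h2).trans ?_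
  rw [sum_const, nsmul_eq_mul, mul_one]
  -- number of types
  have h6 : (F.image T).card ≤ (Fintype.piFinset (fun _ : Y => range (M+1))).card := by
    apply card_le_card_of_injOn (fun t => fun y : Y => t y)
    · intro t ht
      rw [mem_coe] at ht
      obtain ⟨z0, _, rfl⟩ := mem_image.mp ht
      rw [mem_coe, Fintype.mem_piFinset]
      intro y
      rw [mem_range]
      simp only [T]
      split_ifs
      · exact Nat.lt_succ_of_le (card_le_univ _)
      · omega
    · intro t ht t' ht' h
      rw [mem_coe] at ht ht'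
      obtain ⟨z0, _, rfl⟩ := mem_image.mp ht
      obtain ⟨z1, _, rfl⟩ := mem_image.mp ht'
      funext y
      by_cases hy : y ∈ Y
      · exact congrFun h ⟨y, hy⟩
      · simp only [T, hy, if_false]
  rw [Fintype.card_piFinset] at h6
  simp only [card_range, prod_const, card_univ, Fintype.card_coe] at h6
  calc ((F.image T).card : ℝ) ≤ (((M+1)^Y.card : ℕ) : ℝ) := by exact_mod_cast h6
    _ = _ := by push_cast; ring

end types

end Pool.Agent.Helper31.GB
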