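import Mathlib
import Pool.Agent.Helper31.GB.Counting
import Pool.Agent.Helper31.GB.Analytic

set_option autoImplicit false

namespace Pool.Agent.Helper31.GB

open Finset

/-- Frequency of the value `c` in the word `w`. -/
noncomputable def fr {α κ : Type} [Fintype α] [DecidableEq κ] (w : α → κ) (c : κ) : ℝ :=
  ((univ.filter (fun a => w a = c)).card : ℝ) / Fintype.card α

section fr

variable {α κ : Type} [Fintype α] [DecidableEq κ]

lemma fr_nonneg (w : α → κ) (c : κ) : 0 ≤ fr w c := by unfold fr; positivity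

lemma fr_pos (w : α → κ) (a : α) : 0 < fr w (w a) := by
  unfold fr
  have h1 : 0 < (univ.filter (fun b => w b = w a)).card := card_pos.mpr ⟨a, by simp⟩
  have h2 := card_pos' a
  positivity

lemma S_eq (w : α → κ) : S w = - ∑ a, Real.log (fr w (w a)) := by
  unfold S
  rw [← sum_neg_distrib]
  refine sum_congr rfl fun a _ => ?_
  rw [← Real.log_inv]
  congr 1
  unfold fr cnt
  rw [inv_div]

lemma sum_fr [Nonempty α] (w : α → κ) (Y : Finset κ) (hY : ∀ a, w a ∈ Y) :
    ∑ c ∈ Y, fr w c = 1 := by
  unfold fr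
  rw [← sum_div]
  have h : ∑ c ∈ Y, ((univ.filter (fun a => w a = c)).card : ℝ) = Fintype.card α := by
    have : ∑ c ∈ Y, (univ.filter (fun a => w a = c)).card = Fintype.card α := by
      rw [← card_univ, card_eq_sum_card_fiberwise (f := w) (t := Y)]
      intro a _; exact hY a
    exact_mod_cast this
  rw [h, div_self]
  have := Fintype.card_pos (α := α)
  positivity

lemma sum_fr_le [Nonempty α] (w : α → κ) (Y : Finset κ) :
    ∑ c ∈ Y, fr w c ≤ 1 := by
  rw [← sum_fr w (Y ∪ univ.image w) (fun a => by simp)]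
  apply sum_le_sum_of_subset_of_nonneg subset_union_left
  intro c _ _; exact fr_nonneg w c

lemma fr_fiber {κ' : Type} [DecidableEq κ'] (w : α → κ) (Y : Finset κ) (hY : ∀ a, w a ∈ Y)
    (g : κ → κ') (s : κ') :
    fr (fun a => g (w a)) s = ∑ p ∈ Y.filter (fun p => g p = s), fr w p := by
  unfold fr
  rw [← sum_div]
  congr 1
  have : (univ.filter (fun a => g (w a) = s)).card =
      ∑ p ∈ Y.filter (fun p => g p = s), (univ.filter (fun a => w a = p)).card := by
    rw [card_eq_sum_card_fiberwise (f := w) (t := Y.filter (fun p => g p = s))]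
    · refine sum_congr rfl fun p hp => ?_
      congr 1
      ext a
      simp only [mem_filter, mem_univ, true_and]
      constructor
      · rintro ⟨_, h⟩; exact h
      · intro h; refine ⟨?_, h⟩; rw [h]; exact (mem_filter.mp hp).2
    · intro a ha
      simp only [coe_filter, mem_univ, true_and, Set.mem_ofPred_eq] at ha
      simp only [coe_filter, Set.mem_ofPred_eq]
      exact ⟨hY a, ha⟩
  exact_mod_cast this

/-- Hellinger distance is dominated by relative entropy. -/
lemma hellinger [Nonempty α] (z : α → κ) (Y : Finset κ) (hY : ∀ a, z a ∈ Y) (q : κ → ℝ)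
    (hq : ∀ p, 0 ≤ q p) (hqz : ∀ a, 0 < q (z a)) (hqs : ∑ p ∈ Y, q p ≤ 1) :
    ∑ p ∈ Y, (√(fr z p) - √(q p)) ^ 2 ≤
      (∑ a, Real.log (fr z (z a) / q (z a))) / Fintype.card α := by
  have hM : (0:ℝ) < Fintype.card α := by exact_mod_cast Fintype.card_pos
  have h1 : ∀ a, 2 - 2 * √(q (z a) / fr z (z a)) ≤ Real.log (fr z (z a) / q (z a)) := by
    intro a
    have hf := fr_pos z a
    have hqa := hqz a
    have h2 : Real.log (√(q (z a) / fr z (z a))) ≤ √(q (z a) / fr z (z a)) - 1 :=
      Real.log_le_sub_one_of_pos (Real.sqrt_pos.mpr (div_pos hqa hf))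
    rw [Real.log_sqrt (div_pos hqa hf).le] at h2
    have h3 : Real.log (fr z (z a) / q (z a)) = - Real.log (q (z a) / fr z (z a)) := by
      rw [← Real.log_inv, inv_div]
    rw [h3]; linarith
  have h4 : ∑ a, √(q (z a) / fr z (z a)) = Fintype.card α * ∑ p ∈ Y, √(fr z p * q p) := by
    have h5 : ∑ a, √(q (z a) / fr z (z a)) = ∑ p ∈ Y,
        ((univ.filter (fun a => z a = p)).card : ℝ) * √(q p / fr z p) := by
      have := sum_fiberwise_of_maps_to (s := (univ : Finset α)) (t := Y) (g := z)
        (fun a _ => hY a) (fun a => √(q (z a) / fr z (z a)))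
      rw [← this]
      refine sum_congr rfl fun p _ => ?_
      rw [sum_congr rfl (fun a ha => by rw [(mem_filter.mp ha).2])]
      rw [sum_const, nsmul_eq_mul]
    rw [h5, mul_sum]
    refine sum_congr rfl fun p _ => ?_
    have h6 : ((univ.filter (fun a => z a = p)).card : ℝ) = Fintype.card α * fr z p := by
      unfold fr; field_simp
    rw [h6, mul_assoc]
    congr 1
    rcases eq_or_lt_of_le (fr_nonneg z p) with h0 | hpos
    · rw [← h0]; simp
    · rw [Real.sqrt_div (hq p), Real.sqrt_mul hpos.le]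
      have hs : 0 < √(fr z p) := Real.sqrt_pos.mpr hpos
      have hs2 := Real.sq_sqrt hpos.le
      field_simp
      rw [hs2]; ring
  have h7 : ∑ p ∈ Y, (√(fr z p) - √(q p)) ^ 2 = ∑ p ∈ Y, fr z p + ∑ p ∈ Y, q p -
      2 * ∑ p ∈ Y, √(fr z p * q p) := by
    rw [mul_sum, ← sum_add_distrib, ← sum_sub_distrib]
    refine sum_congr rfl fun p _ => ?_
    rw [Real.sqrt_mul (fr_nonneg z p)]
    have e1 := Real.sq_sqrt (fr_nonneg z p)
    have e2 := Real.sq_sqrt (hq p)
    nlinarith
  rw [h7, sum_fr z Y hY, le_div_iff₀ hM]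
  have h8 : ∑ a, (2 - 2 * √(q (z a) / fr z (z a))) ≤ ∑ a, Real.log (fr z (z a) / q (z a)) :=
    sum_le_sum fun a _ => h1 a
  rw [sum_sub_distrib, ← mul_sum, h4, sum_const, card_univ, nsmul_eq_mul] at h8
  nlinarith

/-- The most frequent value controls the entropy from below. -/
lemma max_freq [Nonempty α] (w : α → κ) :
    ∃ a0, ∀ a, fr w (w a) ≤ fr w (w a0) := by
  obtain ⟨a0, _, h⟩ := exists_max_image (univ : Finset α) (fun a => fr w (w a)) univ_nonempty
  exact ⟨a0, fun a => h a (mem_univ a)⟩

lemma S_ge_of_max [Nonempty α] (w : α → κ) (p : ℝ) (hp : ∀ a, fr w (w a) ≤ p) :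
    Real.exp (-(S w / Fintype.card α)) ≤ p := by
  have hM : (0:ℝ) < Fintype.card α := by exact_mod_cast Fintype.card_pos
  obtain ⟨a⟩ := (inferInstance : Nonempty α)
  have hp0 : 0 < p := lt_of_lt_of_le (fr_pos w a) (hp a)
  rw [← Real.exp_log hp0]
  apply Real.exp_le_exp.mpr
  rw [S_eq]
  have h1 : ∑ a, Real.log (fr w (w a)) ≤ Fintype.card α * Real.log p := by
    calc ∑ a, Real.log (fr w (w a)) ≤ ∑ _a : α, Real.log p :=
          sum_le_sum fun a _ => Real.log_le_log (fr_pos w a) (hp a)
      _ = _ := by rw [sum_const, card_univ, nsmul_eq_mul]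
  rw [neg_div, neg_neg, div_le_iff₀ hM]
  linarith

/-- Entropy upper bound in terms of the mass off the most frequent value. -/
lemma S_le_of_off [Nonempty α] (w : α → κ) (X : Finset κ) (hX : ∀ a, w a ∈ X) (y : κ) (hy : y ∈ X)
    (hfy : 0 < fr w y) :
    S w / Fintype.card α ≤ (1 - fr w y) * (1 + Real.log X.card) + 2 * √(1 - fr w y) := by
  have hM : (0:ℝ) < Fintype.card α := by exact_mod_cast Fintype.card_pos
  set a := 1 - fr w y with ha
  have hf1 : fr w y ≤ 1 := by
    rw [← sum_fr w X hX]; exact single_le_sum (fun c _ => fr_nonneg w c) hy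
  have ha0 : 0 ≤ a := by linarith
  have hXc : (1:ℝ) ≤ X.card := by
    have : 1 ≤ X.card := card_pos.mpr ⟨y, hy⟩
    exact_mod_cast this
  have hS : S w / Fintype.card α = ∑ c ∈ X, fr w c * (- Real.log (fr w c)) := by
    rw [S_eq]
    have h5 : ∑ a, Real.log (fr w (w a)) = ∑ p ∈ X,
        ((univ.filter (fun a => w a = p)).card : ℝ) * Real.log (fr w p) := by
      have := sum_fiberwise_of_maps_to (s := (univ : Finset α)) (t := X) (g := w)
        (fun a _ => hX a) (fun a => Real.log (fr w (w a)))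
      rw [← this]
      refine sum_congr rfl fun p _ => ?_
      rw [sum_congr rfl (fun a ha => by rw [(mem_filter.mp ha).2])]
      rw [sum_const, nsmul_eq_mul]
    rw [h5, neg_div, sum_div, ← sum_neg_distrib]
    refine sum_congr rfl fun c _ => ?_
    unfold fr
    ring
  rw [hS, ← add_sum_erase X _ hy]
  have hsum : ∑ c ∈ X.erase y, fr w c = a := by
    have := add_sum_erase X (fr w) hy
    rw [sum_fr w X hX] at this
    linarith
  have h1 : fr w y * (- Real.log (fr w y)) ≤ a := by
    have : Real.log ((fr w y)⁻¹) ≤ (fr w y)⁻¹ - 1 := Real.log_le_sub_one_of_pos (inv_pos.mpr hfy)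
    rw [Real.log_inv] at this
    calc fr w y * (- Real.log (fr w y)) ≤ fr w y * ((fr w y)⁻¹ - 1) :=
          mul_le_mul_of_nonneg_left this hfy.le
      _ = a := by rw [ha]; field_simp
  have h2 : ∑ c ∈ X.erase y, fr w c * (- Real.log (fr w c)) ≤ a * Real.log X.card + 2 * √a := by
    rcases eq_or_lt_of_le ha0 with h0 | hpos
    · have hz : ∀ c ∈ X.erase y, fr w c = 0 := by
        rw [← h0] at hsum
        exact (sum_eq_zero_iff_of_nonneg (fun c _ => fr_nonneg w c)).mp hsum
      rw [sum_eq_zero (fun c hc => by rw [hz c hc]; simp), ← h0]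
      simp
    · have h3 : ∀ c ∈ X.erase y, fr w c * (- Real.log (fr w c)) ≤
          a / X.card - fr w c + fr w c * Real.log (X.card / a) := by
        intro c _
        rcases eq_or_lt_of_le (fr_nonneg w c) with hc0 | hcpos
        · rw [← hc0]; simp; positivity
        · have h4 : Real.log (a / (X.card * fr w c)) ≤ a / (X.card * fr w c) - 1 :=
            Real.log_le_sub_one_of_pos (by positivity)
          have h5 : - Real.log (fr w c) = Real.log (a / (X.card * fr w c)) +
              Real.log (X.card / a) := by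
            rw [← Real.log_mul (by positivity) (by positivity), ← Real.log_inv]
            congr 1
            field_simp
          rw [h5]
          have h6 : fr w c * (a / (X.card * fr w c)) = a / X.card := by field_simp
          nlinarith
      calc ∑ c ∈ X.erase y, fr w c * (- Real.log (fr w c))
          ≤ ∑ c ∈ X.erase y, (a / X.card - fr w c + fr w c * Real.log (X.card / a)) :=
            sum_le_sum h3
        _ = (X.erase y).card * (a / X.card) - a + a * Real.log (X.card / a) := by
            rw [sum_add_distrib, sum_sub_distrib, sum_const, nsmul_eq_mul, ← sum_mul, hsum]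
        _ ≤ a * Real.log (X.card / a) := by
            have : ((X.erase y).card : ℝ) * (a / X.card) ≤ X.card * (a / X.card) := by
              apply mul_le_mul_of_nonneg_right _ (by positivity)
              exact_mod_cast card_le_card (erase_subset _ _)
            have h7 : (X.card : ℝ) * (a / X.card) = a := by field_simp
            linarith
        _ ≤ a * Real.log X.card + 2 * √a := by
            rw [Real.log_div (by positivity) hpos.ne']
            have h8 : - Real.log a ≤ 2 / √a := by
              have hs : 0 < √a := Real.sqrt_pos.mpr hpos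
              have := Real.log_le_sub_one_of_pos (inv_pos.mpr hs)
              rw [Real.log_inv, Real.log_sqrt ha0] at this
              have h9 : 2 / √a = 2 * (√a)⁻¹ := by ring
              rw [h9]; linarith
            have h10 : a * (2 / √a) = 2 * √a := by
              have hs : 0 < √a := Real.sqrt_pos.mpr hpos
              have hs2 := Real.sq_sqrt ha0
              field_simp
              nlinarith
            nlinarith
  linarith

end fr

lemma I_eq {ι : Type} [Fintype ι] (z1 z2 : ι → ℤ) :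
    S (fun i => z1 i + z2 i) + S (fun i => z1 i - z2 i) - S (fun i => (z1 i, z2 i)) =
      ∑ i, Real.log (fr (fun i => (z1 i, z2 i)) (z1 i, z2 i) /
        (fr (fun i => z1 i + z2 i) (z1 i + z2 i) * fr (fun i => z1 i - z2 i) (z1 i - z2 i))) := by
  have hzpos : ∀ i, 0 < fr (fun i => (z1 i, z2 i)) (z1 i, z2 i) :=
    fun i => fr_pos (fun i => (z1 i, z2 i)) i
  have hupos : ∀ i, 0 < fr (fun i => z1 i + z2 i) (z1 i + z2 i) :=
    fun i => fr_pos (fun i => z1 i + z2 i) i
  have hvpos : ∀ i, 0 < fr (fun i => z1 i - z2 i) (z1 i - z2 i) :=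
    fun i => fr_pos (fun i => z1 i - z2 i) i
  rw [S_eq, S_eq, S_eq, ← sum_neg_distrib, ← sum_neg_distrib, ← sum_neg_distrib,
    ← sum_add_distrib, ← sum_sub_distrib]
  refine sum_congr rfl fun i _ => ?_
  rw [Real.log_div (hzpos i).ne' (mul_pos (hupos i) (hvpos i)).ne',
    Real.log_mul (hupos i).ne' (hvpos i).ne']
  ring

/-- pairs / sums / differences -/
lemma entropy_gain {ι : Type} [Fintype ι] [Nonempty ι] (z1 z2 : ι → ℤ) :
    ∃ y ∈ univ.image (Sum.elim z1 z2), (∀ a, fr (Sum.elim z1 z2) (Sum.elim z1 z2 a) ≤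
      fr (Sum.elim z1 z2) y) ∧
      (Fintype.card ι : ℝ) * ((fr (Sum.elim z1 z2) y) ^ 4 * (1 - fr (Sum.elim z1 z2) y) / 78400) ≤
      (S (Sum.elim z1 z2) - S (fun i => (z1 i, z2 i))) +
      (S (fun i => z1 i + z2 i) + S (fun i => z1 i - z2 i) - S (fun i => (z1 i, z2 i))) ∧
      0 ≤ S (fun i => z1 i + z2 i) + S (fun i => z1 i - z2 i) - S (fun i => (z1 i, z2 i)) := by
  classical
  set w := Sum.elim z1 z2 with hw
  set z : ι → ℤ × ℤ := fun i => (z1 i, z2 i) with hz
  set u : ι → ℤ := fun i => z1 i + z2 i with hu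
  set v : ι → ℤ := fun i => z1 i - z2 i with hv
  set X := univ.image w with hX
  have hM : (0:ℝ) < Fintype.card ι := by exact_mod_cast Fintype.card_pos
  have hX1 : ∀ i, z1 i ∈ X := fun i => by
    rw [hX]; exact mem_image.mpr ⟨Sum.inl i, mem_univ _, rfl⟩
  have hX2 : ∀ i, z2 i ∈ X := fun i => by
    rw [hX]; exact mem_image.mpr ⟨Sum.inr i, mem_univ _, rfl⟩
  have hzY : ∀ i, z i ∈ X ×ˢ X := fun i => mem_product.mpr ⟨hX1 i, hX2 i⟩
  have hwX : ∀ a, w a ∈ X := fun a => mem_image_of_mem w (mem_univ a)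
  -- splitting of fr w
  have hcard : (Fintype.card (ι ⊕ ι) : ℝ) = 2 * Fintype.card ι := by
    rw [Fintype.card_sum]; push_cast; ring
  have hfw : ∀ c, 2 * fr w c = fr z1 c + fr z2 c := by
    intro c
    unfold fr
    have h1 : (univ.filter (fun a => w a = c)).card =
        (univ.filter (fun i => z1 i = c)).card + (univ.filter (fun i => z2 i = c)).card := by
      rw [card_filter, card_filter, card_filter, Fintype.sum_sum_type]
      rfl
    rw [h1, hcard]
    push_cast
    field_simp
  have hwpos1 : ∀ i, 0 < fr w (z1 i) := fun i => fr_pos w (Sum.inl i)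
  have hwpos2 : ∀ i, 0 < fr w (z2 i) := fun i => fr_pos w (Sum.inr i)
  have hzpos : ∀ i, 0 < fr z (z i) := fun i => fr_pos z i
  have hupos : ∀ i, 0 < fr u (z1 i + z2 i) := fun i => fr_pos u i
  have hvpos : ∀ i, 0 < fr v (z1 i - z2 i) := fun i => fr_pos v i
  have hSw : S w = - ∑ i, Real.log (fr w (z1 i)) - ∑ i, Real.log (fr w (z2 i)) := by
    rw [S_eq, Fintype.sum_sum_type]
    simp only [hw, Sum.elim_inl, Sum.elim_inr]
    ring
  have hD : (S w - S z) = ∑ i, Real.log (fr z (z i) / (fr w (z1 i) * fr w (z2 i))) := by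
    rw [hSw, S_eq z, ← sum_neg_distrib, ← sum_sub_distrib, ← sum_neg_distrib, ← sum_sub_distrib]
    refine sum_congr rfl fun i _ => ?_
    rw [Real.log_div (hzpos i).ne' (mul_pos (hwpos1 i) (hwpos2 i)).ne',
      Real.log_mul (hwpos1 i).ne' (hwpos2 i).ne']
    ring
  have hI : (S u + S v - S z) =
      ∑ i, Real.log (fr z (z i) / (fr u (z1 i + z2 i) * fr v (z1 i - z2 i))) := by
    rw [S_eq u, S_eq v, S_eq z, ← sum_neg_distrib, ← sum_neg_distrib, ← sum_neg_distrib,
      ← sum_add_distrib, ← sum_sub_distrib]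
    refine sum_congr rfl fun i _ => ?_
    rw [Real.log_div (hzpos i).ne' (mul_pos (hupos i) (hvpos i)).ne',
      Real.log_mul (hupos i).ne' (hvpos i).ne']
    simp only [hu, hv]
    ring
  have hτsum : ∑ c ∈ X, fr w c = 1 := sum_fr w X hwX
  have hdata : Data X (fr z) (fr w) (fr u) (fr v) ((S w - S z) / Fintype.card ι)
      ((S u + S v - S z) / Fintype.card ι) := by
    refine ⟨fr_nonneg z, sum_fr z _ hzY, fr_nonneg w, hτsum, ?_, ?_, ?_, ?_, ?_, ?_⟩
    · intro c hc
      unfold fr
      have : univ.filter (fun a => w a = c) = ∅ := by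
        rw [filter_eq_empty_iff]
        intro a _ ha
        exact hc (ha ▸ hwX a)
      rw [this]; simp
    · intro c hc
      rw [hfw]
      have h1 := fr_fiber z (X ×ˢ X) hzY (fun p => p.1) c
      have h2 := fr_fiber z (X ×ˢ X) hzY (fun p => p.2) c
      have h1' : fr z1 c = ∑ b ∈ X, fr z (c, b) := by
        have e : fr (fun a => (fun p : ℤ × ℤ => p.1) (z a)) c = fr z1 c := rfl
        rw [← e, h1, sum_filter, sum_product, sum_eq_single_of_mem c hc]
        · simp
        · intro b _ hb; simp [hb]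
      have h2' : fr z2 c = ∑ b ∈ X, fr z (b, c) := by
        have e : fr (fun a => (fun p : ℤ × ℤ => p.2) (z a)) c = fr z2 c := rfl
        rw [← e, h2, sum_filter, sum_product_right, sum_eq_single_of_mem c hc]
        · simp
        · intro b _ hb; simp [hb]
      rw [h1', h2']
    · intro s
      exact fr_fiber z (X ×ˢ X) hzY (fun p => p.1 + p.2) s
    · intro s
      exact fr_fiber z (X ×ˢ X) hzY (fun p => p.1 - p.2) s
    · rw [hD]
      refine hellinger z (X ×ˢ X) hzY (fun p => fr w p.1 * fr w p.2)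
        (fun p => mul_nonneg (fr_nonneg _ _) (fr_nonneg _ _))
        (fun i => mul_pos (hwpos1 i) (hwpos2 i)) ?_
      rw [sum_product]
      simp_rw [← mul_sum]
      rw [← sum_mul, hτsum, one_mul]
    · rw [hI]
      refine hellinger z (X ×ˢ X) hzY (fun p => fr u (p.1 + p.2) * fr v (p.1 - p.2))
        (fun p => mul_nonneg (fr_nonneg _ _) (fr_nonneg _ _))
        (fun i => mul_pos (hupos i) (hvpos i)) ?_
      have := prod_le (X ×ˢ X) (fr u) (fr v) (fr_nonneg u) (fr_nonneg v) 1 1
        (fun A => sum_fr_le u A) (fun A => sum_fr_le v A)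
      simpa using this
  obtain ⟨a0, ha0⟩ := max_freq w
  refine ⟨w a0, hwX a0, ha0, ?_, ?_⟩
  swap
  · have := hdata.I0
    rw [le_div_iff₀ hM] at this
    linarith
  have hg := hdata.gain (w a0) (hwX a0) (fun c hc => by
    obtain ⟨a, _, rfl⟩ := mem_image.mp hc
    exact ha0 a)
  rw [← add_div, le_div_iff₀ hM] at hg
  linarith

/-- The absolute constant in the gain. -/
noncomputable def K1 : ℝ := Real.exp (-240) / (400 * 64 * 78400)

lemma K1_pos : 0 < K1 := by unfold K1; positivity

lemma gain_final {ι : Type} [Fintype ι] [Nonempty ι] (z1 z2 : ι → ℤ) (d : ℕ)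
    (hb : ∀ a, |Sum.elim z1 z2 a| ≤ 2 ^ d)
    (h1 : (1 / 40) * (2 * (Fintype.card ι : ℝ)) ≤ S (Sum.elim z1 z2))
    (h2 : S (Sum.elim z1 z2) ≤ 60 * (2 * (Fintype.card ι : ℝ))) :
    (Fintype.card ι : ℝ) * (K1 / (d + 3)) ≤
      (S (Sum.elim z1 z2) - S (fun i => (z1 i, z2 i))) +
      (S (fun i => z1 i + z2 i) + S (fun i => z1 i - z2 i) - S (fun i => (z1 i, z2 i))) := by
  classical
  obtain ⟨y, hyX, hmax, hgain, _⟩ := entropy_gain z1 z2
  refine le_trans ?_ hgain
  set w := Sum.elim z1 z2 with hw
  have hM : (0:ℝ) < Fintype.card ι := by exact_mod_cast Fintype.card_pos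
  have hcard : (Fintype.card (ι ⊕ ι) : ℝ) = 2 * Fintype.card ι := by
    rw [Fintype.card_sum]; push_cast; ring
  apply mul_le_mul_of_nonneg_left _ hM.le
  set p := fr w y with hp
  obtain ⟨a1, _, ha1⟩ := mem_image.mp hyX
  have hppos : 0 < p := by rw [hp, ← ha1]; exact fr_pos w a1
  have hp1 : Real.exp (-60) ≤ p := by
    refine le_trans ?_ (S_ge_of_max w p hmax)
    apply Real.exp_le_exp.mpr
    rw [hcard]
    have : S w / (2 * Fintype.card ι) ≤ 60 := by
      rw [div_le_iff₀ (by positivity)]; linarith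
    linarith
  have hp4 : Real.exp (-240) ≤ p ^ 4 := by
    calc Real.exp (-240) = (Real.exp (-60)) ^ 4 := by
          rw [← Real.exp_nat_mul]; norm_num
      _ ≤ p ^ 4 := pow_le_pow_left₀ (Real.exp_pos _).le hp1 4
  have hXc : ((univ.image w).card : ℝ) ≤ 2 ^ (d + 2) := by
    have hsub : univ.image w ⊆ Icc (-(2:ℤ)^d) (2^d) := by
      intro c hc
      obtain ⟨a, _, rfl⟩ := mem_image.mp hc
      rw [mem_Icc]
      exact abs_le.mp (hb a)
    have h3 := card_le_card hsub
    rw [Int.card_Icc] at h3
    have h4 : ((2:ℤ)^d + 1 - -(2:ℤ)^d).toNat ≤ 2 ^ (d+2) := by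
      have h5 : (1:ℤ) ≤ 2^d := one_le_pow₀ (by norm_num)
      have h6 : ((2:ℤ)^d + 1 - -(2:ℤ)^d) ≤ ((2 ^ (d+2) : ℕ) : ℤ) := by
        push_cast; rw [pow_add]; linarith
      exact Int.toNat_le.mpr h6
    exact_mod_cast h3.trans h4
  have hXpos : (0:ℝ) < (univ.image w).card := by
    have : 0 < (univ.image w).card := card_pos.mpr ⟨y, hyX⟩
    exact_mod_cast this
  have hlog : Real.log ((univ.image w).card) ≤ d + 2 := by
    calc Real.log ((univ.image w).card) ≤ Real.log (2 ^ (d+2)) := Real.log_le_log hXpos hXc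
      _ = (d + 2) * Real.log 2 := by rw [Real.log_pow]; push_cast; ring
      _ ≤ (d + 2) * 1 := by
          apply mul_le_mul_of_nonneg_left _ (by positivity)
          have := Real.log_two_lt_d9; linarith
      _ = d + 2 := by ring
  have hSoff := S_le_of_off w (univ.image w) (fun a => mem_image_of_mem w (mem_univ a)) y hyX hppos
  rw [hcard, ← hp] at hSoff
  have hp_le1 : p ≤ 1 := by
    have := sum_fr w (univ.image w) (fun a => mem_image_of_mem w (mem_univ a))
    rw [← this]
    exact single_le_sum (fun c _ => fr_nonneg w c) hyX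
  set a := 1 - p with ha
  have ha0 : 0 ≤ a := by linarith
  have hd0 : (0:ℝ) ≤ d := Nat.cast_nonneg d
  have ha_lower : 1 / (400 * 64 * ((d:ℝ) + 3)) ≤ a := by
    by_contra hlt
    push Not at hlt
    have h3 : (1:ℝ)/40 ≤ S w / (2 * Fintype.card ι) := by
      rw [le_div_iff₀ (by positivity)]; linarith
    have h4 : a * (1 + Real.log ((univ.image w).card)) ≤ a * (d + 3) :=
      mul_le_mul_of_nonneg_left (by linarith) ha0
    have h5 : a * ((d:ℝ) + 3) ≤ 1 / (400 * 64) := by
      have := mul_le_mul_of_nonneg_right hlt.le (by linarith : (0:ℝ) ≤ (d:ℝ)+3)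
      have h6 : 1 / (400 * 64 * ((d:ℝ) + 3)) * ((d:ℝ)+3) = 1 / (400*64) := by
        field_simp
      linarith
    have h7 : √a ≤ 1 / 160 := by
      have h8 : a ≤ (1/160)^2 := by
        have : 1 / (400 * 64 * ((d:ℝ) + 3)) ≤ 1 / (400 * 64) := by
          apply one_div_le_one_div_of_le (by norm_num)
          nlinarith
        have h9 : (1:ℝ)/(400*64) = (1/160)^2 := by norm_num
        linarith
      calc √a ≤ √((1/160)^2) := Real.sqrt_le_sqrt h8
        _ = 1/160 := Real.sqrt_sq (by norm_num)
    have h10 : (1:ℝ)/(400*64) ≤ 1/25000 := by norm_num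
    linarith
  unfold K1
  have h11 : Real.exp (-240) * (1 / (400 * 64 * ((d:ℝ) + 3))) ≤ p ^ 4 * a :=
    mul_le_mul hp4 ha_lower (by positivity) (by positivity)
  have h12 : Real.exp (-240) / (400 * 64 * 78400) / ((d:ℝ) + 3) =
      Real.exp (-240) * (1 / (400 * 64 * ((d:ℝ) + 3))) / 78400 := by
    field_simp
  rw [h12]
  apply div_le_div_of_nonneg_right h11 (by norm_num)

/-- Words on `k` letters have entropy at most `log k`. -/
lemma S_le_log_card {α κ : Type} [Fintype α] [Nonempty α] [DecidableEq κ] (z : α → κ)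
    (Y : Finset κ) (hY : ∀ a, z a ∈ Y) : S z ≤ Fintype.card α * Real.log Y.card := by
  have hM : (0:ℝ) < Fintype.card α := by exact_mod_cast Fintype.card_pos
  obtain ⟨a0⟩ := (inferInstance : Nonempty α)
  have hYc : (0:ℝ) < Y.card := by
    have : 0 < Y.card := card_pos.mpr ⟨z a0, hY a0⟩
    exact_mod_cast this
  have h1 : ∀ a, - Real.log (fr z (z a)) ≤ (1 / (Y.card * fr z (z a)) - 1) + Real.log Y.card := by
    intro a
    have hf := fr_pos z a
    have h2 := Real.log_le_sub_one_of_pos (by positivity : 0 < 1 / (Y.card * fr z (z a)))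
    have h3 : Real.log (1 / (Y.card * fr z (z a))) = - Real.log Y.card - Real.log (fr z (z a)) := by
      rw [one_div, Real.log_inv, Real.log_mul hYc.ne' hf.ne']; ring
    linarith
  rw [S_eq, ← sum_neg_distrib]
  have h4 : ∑ a, (1 / (Y.card * fr z (z a))) ≤ (Fintype.card α : ℝ) := by
    have h5 : ∑ a, (1 / (Y.card * fr z (z a))) = ∑ p ∈ Y,
        ((univ.filter (fun a => z a = p)).card : ℝ) * (1 / (Y.card * fr z p)) := by
      have := sum_fiberwise_of_maps_to (s := (univ : Finset α)) (t := Y) (g := z)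
        (fun a _ => hY a) (fun a => 1 / (Y.card * fr z (z a)))
      rw [← this]
      refine sum_congr rfl fun p _ => ?_
      rw [sum_congr rfl (fun a ha => by rw [(mem_filter.mp ha).2])]
      rw [sum_const, nsmul_eq_mul]
    rw [h5]
    calc ∑ p ∈ Y, ((univ.filter (fun a => z a = p)).card : ℝ) * (1 / (Y.card * fr z p))
        ≤ ∑ _p ∈ Y, (Fintype.card α : ℝ) / Y.card := by
          apply sum_le_sum
          intro p _
          rcases eq_or_lt_of_le (fr_nonneg z p) with h0 | hpos
          · rw [← h0]; simp; positivity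
          · have h6 : ((univ.filter (fun a => z a = p)).card : ℝ) = Fintype.card α * fr z p := by
              unfold fr; field_simp
            rw [h6]
            apply le_of_eq
            field_simp
      _ = Fintype.card α := by
          rw [sum_const, nsmul_eq_mul]; field_simp
  calc ∑ a, - Real.log (fr z (z a))
      ≤ ∑ a, ((1 / (Y.card * fr z (z a)) - 1) + Real.log Y.card) := sum_le_sum fun a _ => h1 a
    _ = ∑ a, (1 / (Y.card * fr z (z a))) - Fintype.card α + Fintype.card α * Real.log Y.card := by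
        rw [sum_add_distrib, sum_sub_distrib, sum_const, sum_const, card_univ, nsmul_eq_mul,
          nsmul_eq_mul, mul_one]
    _ ≤ _ := by linarith

end Pool.Agent.Helper31.GB
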