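import Mathlib
import Pool.Agent.Helper31.GB.Counting

set_option autoImplicit false

namespace Pool.Agent.Helper31.GB

open Finset

/-- Hadamard matrices with integer entries. -/
structure IsHad {ι : Type} [Fintype ι] [DecidableEq ι] (A : ι → ι → ℤ) : Prop where
  pm : ∀ i j, A i j = 1 ∨ A i j = -1
  row : ∀ i k, ∑ j, A i j * A k j = if i = k then (Fintype.card ι : ℤ) else 0
  col : ∀ j k, ∑ i, A i j * A i k = if j = k then (Fintype.card ι : ℤ) else 0

section merge

variable {ι : Type} [Fintype ι] [DecidableEq ι]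

/-- The doubling construction. -/
def merge (A B : ι → ι → ℤ) : ι ⊕ ι → ι ⊕ ι → ℤ
  | Sum.inl i, Sum.inl j => A i j
  | Sum.inl i, Sum.inr j => B i j
  | Sum.inr i, Sum.inl j => A i j
  | Sum.inr i, Sum.inr j => - B i j

lemma IsHad.merge {A B : ι → ι → ℤ} (hA : IsHad A) (hB : IsHad B) : IsHad (merge A B) := by
  refine ⟨?_, ?_, ?_⟩
  · rintro (i | i) (j | j)
    · exact hA.pm i j
    · exact hB.pm i j
    · exact hA.pm i j
    · rcases hB.pm i j with h | h
      · right; show - B i j = -1; rw [h]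
      · left; show - B i j = 1; rw [h]; norm_num
  · rintro (i | i) (k | k)
    · rw [Fintype.sum_sum_type]
      simp only [GB.merge, hA.row, hB.row, Sum.inl.injEq, Fintype.card_sum]
      split_ifs <;> push_cast <;> ring
    · rw [Fintype.sum_sum_type]
      simp only [GB.merge, hA.row, Fintype.card_sum, reduceCtorEq, if_false]
      have : ∑ x, B i x * -B k x = - ∑ x, B i x * B k x := by
        rw [← sum_neg_distrib]; exact sum_congr rfl fun x _ => by ring
      rw [this, hB.row]; ring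
    · rw [Fintype.sum_sum_type]
      simp only [GB.merge, hA.row, Fintype.card_sum, reduceCtorEq, if_false]
      have : ∑ x, -B i x * B k x = - ∑ x, B i x * B k x := by
        rw [← sum_neg_distrib]; exact sum_congr rfl fun x _ => by ring
      rw [this, hB.row]; ring
    · rw [Fintype.sum_sum_type]
      simp only [GB.merge, hA.row, Sum.inr.injEq, Fintype.card_sum]
      have : ∑ x, -B i x * -B k x = ∑ x, B i x * B k x := sum_congr rfl fun x _ => by ring
      rw [this, hB.row]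
      split_ifs <;> push_cast <;> ring
  · rintro (j | j) (k | k)
    · rw [Fintype.sum_sum_type]
      simp only [GB.merge, hA.col, Sum.inl.injEq, Fintype.card_sum]
      split_ifs <;> push_cast <;> ring
    · rw [Fintype.sum_sum_type]
      simp only [GB.merge, Fintype.card_sum, reduceCtorEq, if_false]
      have : ∑ x, A x j * -B x k = - ∑ x, A x j * B x k := by
        rw [← sum_neg_distrib]; exact sum_congr rfl fun x _ => by ring
      rw [this]; ring
    · rw [Fintype.sum_sum_type]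
      simp only [GB.merge, Fintype.card_sum, reduceCtorEq, if_false]
      have : ∑ x, -B x j * A x k = - ∑ x, B x j * A x k := by
        rw [← sum_neg_distrib]; exact sum_congr rfl fun x _ => by ring
      rw [this]; ring
    · rw [Fintype.sum_sum_type]
      simp only [GB.merge, Sum.inr.injEq, Fintype.card_sum]
      have : ∑ x, -B x j * -B x k = ∑ x, B x j * B x k := sum_congr rfl fun x _ => by ring
      rw [this, hB.col]
      split_ifs <;> push_cast <;> ring

lemma IsHad.perm {A : ι → ι → ℤ} (hA : IsHad A) (P : Equiv.Perm ι) :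
    IsHad (fun i j => A (P i) j) := by
  refine ⟨fun i j => hA.pm _ _, ?_, ?_⟩
  · intro i k
    rw [hA.row]
    simp
  · intro j k
    rw [← hA.col j k]
    exact Equiv.sum_comp P (fun i => A i j * A i k)

end merge

section Z

variable {ι : Type} [Fintype ι] [DecidableEq ι]

/-- `(A x)_i` for a sign vector `x`. -/
noncomputable def mv (A : ι → ι → ℤ) (x : ι → ℤˣ) (i : ι) : ℝ := ∑ j, (A i j : ℝ) * ((x j : ℤ) : ℝ)

/-- The scale factor. -/
noncomputable def gam (ι : Type) [Fintype ι] (d : ℕ) : ℝ := √((Fintype.card ι : ℝ) / 2 ^ d)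

/-- Soft count of sign vectors `x` with `A x` close to `gam * w`. -/
noncomputable def Z (β : ℝ) (d : ℕ) (A : ι → ι → ℤ) (w : ι → ℤ) : ℝ :=
  ∑ x : ι → ℤˣ, Real.exp (-(β / Fintype.card ι * ∑ i, (mv A x i - gam ι d * w i) ^ 2))

lemma Z_nonneg (β : ℝ) (d : ℕ) (A : ι → ι → ℤ) (w : ι → ℤ) : 0 ≤ Z β d A w :=
  sum_nonneg fun _ _ => (Real.exp_pos _).le

lemma units_sq (e : ℤˣ) : ((e : ℤ) : ℝ) ^ 2 = 1 := by
  rcases Int.units_eq_one_or e with h | h <;> simp [h]

lemma Z_perm (β : ℝ) (d : ℕ) (A : ι → ι → ℤ) (w : ι → ℤ) (P : Equiv.Perm ι) :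
    Z β d (fun i j => A (P.symm i) j) w = Z β d A (w ∘ P) := by
  unfold Z
  refine sum_congr rfl fun x _ => ?_
  congr 3
  rw [← Equiv.sum_comp P (fun i => (mv (fun i j => A (P.symm i) j) x i - gam ι d * w i) ^ 2)]
  refine sum_congr rfl fun i _ => ?_
  simp [mv]

lemma gam_sum (ι : Type) [Fintype ι] (d : ℕ) : gam (ι ⊕ ι) d = 2 * gam ι (d + 1) := by
  unfold gam
  rw [Fintype.card_sum]
  have : ((Fintype.card ι + Fintype.card ι : ℕ) : ℝ) / 2 ^ d =
      2 ^ 2 * ((Fintype.card ι : ℝ) / 2 ^ (d+1)) := by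
    push_cast; rw [pow_succ]; field_simp; ring
  rw [this, Real.sqrt_mul (by norm_num), Real.sqrt_sq (by norm_num)]

/-- Factorisation of the soft count along the doubling construction. -/
lemma Z_merge [Nonempty ι] (β : ℝ) (d : ℕ) (A B : ι → ι → ℤ) (w : ι ⊕ ι → ℤ) :
    Z β d (merge A B) w =
      Z β (d+1) A (fun i => w (Sum.inl i) + w (Sum.inr i)) *
      Z β (d+1) B (fun i => w (Sum.inl i) - w (Sum.inr i)) := by
  have hM : (0:ℝ) < Fintype.card ι := by exact_mod_cast Fintype.card_pos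
  unfold Z
  rw [sum_mul_sum, ← Equiv.sum_comp (Equiv.sumArrowEquivProdArrow ι ι ℤˣ).symm,
    Fintype.sum_prod_type]
  refine sum_congr rfl fun x _ => sum_congr rfl fun y _ => ?_
  rw [← Real.exp_add]
  congr 1
  rw [Fintype.sum_sum_type, gam_sum]
  have hcard : ((Fintype.card (ι ⊕ ι) : ℕ) : ℝ) = 2 * Fintype.card ι := by
    rw [Fintype.card_sum]; push_cast; ring
  rw [hcard]
  have h1 : ∀ i, mv (merge A B) ((Equiv.sumArrowEquivProdArrow ι ι ℤˣ).symm (x, y)) (Sum.inl i) =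
      mv A x i + mv B y i := by
    intro i
    unfold mv
    rw [Fintype.sum_sum_type]
    rfl
  have h2 : ∀ i, mv (merge A B) ((Equiv.sumArrowEquivProdArrow ι ι ℤˣ).symm (x, y)) (Sum.inr i) =
      mv A x i - mv B y i := by
    intro i
    unfold mv
    rw [Fintype.sum_sum_type, sub_eq_add_neg, ← sum_neg_distrib]
    congr 1
    refine sum_congr rfl fun j _ => ?_
    simp [merge, Equiv.sumArrowEquivProdArrow]
  simp_rw [h1, h2]
  rw [← sum_add_distrib]
  have h3 : ∀ i, (mv A x i + mv B y i - 2 * gam ι (d+1) * (w (Sum.inl i) : ℝ)) ^ 2 +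
      (mv A x i - mv B y i - 2 * gam ι (d+1) * (w (Sum.inr i) : ℝ)) ^ 2 =
      2 * (mv A x i - gam ι (d+1) * ((w (Sum.inl i) + w (Sum.inr i) : ℤ) : ℝ)) ^ 2 +
      2 * (mv B y i - gam ι (d+1) * ((w (Sum.inl i) - w (Sum.inr i) : ℤ) : ℝ)) ^ 2 := by
    intro i; push_cast; ring
  simp_rw [h3]
  rw [sum_add_distrib, ← mul_sum, ← mul_sum]
  field_simp
  ring

/-- For a Hadamard matrix the soft count is a product of one-dimensional sums. -/
lemma had_norm [Nonempty ι] {A : ι → ι → ℤ} (hA : IsHad A) (x : ι → ℤˣ) :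
    ∑ i, (mv A x i) ^ 2 = (Fintype.card ι : ℝ) ^ 2 := by
  unfold mv
  have h1 : ∀ i, (∑ j, (A i j : ℝ) * ((x j : ℤ) : ℝ)) ^ 2 =
      ∑ j, ∑ k, ((A i j : ℝ) * (A i k : ℝ)) * (((x j : ℤ) : ℝ) * ((x k : ℤ) : ℝ)) := by
    intro i
    rw [sq, sum_mul_sum]
    exact sum_congr rfl fun j _ => sum_congr rfl fun k _ => by ring
  simp_rw [h1]
  rw [sum_comm]
  have h2 : ∀ j, ∑ i, ∑ k, ((A i j : ℝ) * (A i k : ℝ)) * (((x j : ℤ) : ℝ) * ((x k : ℤ) : ℝ)) =
      (Fintype.card ι : ℝ) := by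
    intro j
    rw [sum_comm]
    have h3 : ∀ k, ∑ i, ((A i j : ℝ) * (A i k : ℝ)) * (((x j : ℤ) : ℝ) * ((x k : ℤ) : ℝ)) =
        if j = k then (Fintype.card ι : ℝ) else 0 := by
      intro k
      rw [← sum_mul]
      have h4 : ∑ i, (A i j : ℝ) * (A i k : ℝ) = if j = k then (Fintype.card ι : ℝ) else 0 := by
        have := hA.col j k
        have h5 : ((∑ i, A i j * A i k : ℤ) : ℝ) =
            ((if j = k then (Fintype.card ι : ℤ) else 0 : ℤ) : ℝ) := by rw [this]
        push_cast at h5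
        rw [h5]
      rw [h4]
      by_cases h : j = k
      · subst h
        have := units_sq (x j)
        simp only [if_true]
        rw [← sq, this, mul_one]
      · simp [h]
    simp_rw [h3]
    simp
  simp_rw [h2]
  rw [sum_const, card_univ, nsmul_eq_mul]
  ring

/-- Adjoint vector. -/
noncomputable def adj (d : ℕ) (A : ι → ι → ℤ) (w : ι → ℤ) (j : ι) : ℝ :=
  gam ι d * (∑ i, (A i j : ℝ) * (w i : ℝ)) / Fintype.card ι

lemma gam_sq (ι : Type) [Fintype ι] (d : ℕ) : gam ι d ^ 2 = (Fintype.card ι : ℝ) / 2 ^ d := by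
  unfold gam
  rw [Real.sq_sqrt (by positivity)]

lemma adj_norm [Nonempty ι] {A : ι → ι → ℤ} (hA : IsHad A) (d : ℕ) (w : ι → ℤ) :
    ∑ j, (adj d A w j) ^ 2 = (∑ i, (w i : ℝ) ^ 2) / 2 ^ d := by
  have hM : (0:ℝ) < Fintype.card ι := by exact_mod_cast Fintype.card_pos
  have h1 : ∑ j, (∑ i, (A i j : ℝ) * (w i : ℝ)) ^ 2 = Fintype.card ι * ∑ i, (w i : ℝ) ^ 2 := by
    have h1 : ∀ j, (∑ i, (A i j : ℝ) * (w i : ℝ)) ^ 2 =
        ∑ i, ∑ k, ((A i j : ℝ) * (A k j : ℝ)) * ((w i : ℝ) * (w k : ℝ)) := by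
      intro j
      rw [sq, sum_mul_sum]
      exact sum_congr rfl fun i _ => sum_congr rfl fun k _ => by ring
    simp_rw [h1]
    rw [sum_comm, mul_sum]
    refine sum_congr rfl fun i _ => ?_
    rw [sum_comm]
    have h3 : ∀ k, ∑ j, ((A i j : ℝ) * (A k j : ℝ)) * ((w i : ℝ) * (w k : ℝ)) =
        if i = k then (Fintype.card ι : ℝ) * (w i : ℝ) ^ 2 else 0 := by
      intro k
      rw [← sum_mul]
      have h4 : ∑ j, (A i j : ℝ) * (A k j : ℝ) = if i = k then (Fintype.card ι : ℝ) else 0 := by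
        have := hA.row i k
        have h5 : ((∑ j, A i j * A k j : ℤ) : ℝ) =
            ((if i = k then (Fintype.card ι : ℤ) else 0 : ℤ) : ℝ) := by rw [this]
        push_cast at h5
        rw [h5]
      rw [h4]
      by_cases h : i = k
      · subst h; simp only [if_true]; ring
      · simp [h]
    simp_rw [h3]
    simp
  have h2 : ∀ j, (adj d A w j) ^ 2 = gam ι d ^ 2 / (Fintype.card ι) ^ 2 *
      (∑ i, (A i j : ℝ) * (w i : ℝ)) ^ 2 := by
    intro j; unfold adj; rw [div_pow, mul_pow]; ring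
  simp_rw [h2]
  rw [← mul_sum, h1, gam_sq]
  field_simp

lemma had_dist [Nonempty ι] {A : ι → ι → ℤ} (hA : IsHad A) (d : ℕ) (w : ι → ℤ) (x : ι → ℤˣ) :
    ∑ i, (mv A x i - gam ι d * w i) ^ 2 =
      Fintype.card ι * ∑ j, (((x j : ℤ) : ℝ) - adj d A w j) ^ 2 := by
  have hM : (0:ℝ) < Fintype.card ι := by exact_mod_cast Fintype.card_pos
  have h1 : ∑ i, (mv A x i - gam ι d * w i) ^ 2 =
      ∑ i, (mv A x i) ^ 2 - 2 * gam ι d * ∑ i, mv A x i * w i + gam ι d ^ 2 * ∑ i, (w i : ℝ)^2 := by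
    rw [mul_sum, mul_sum, ← sum_sub_distrib, ← sum_add_distrib]
    exact sum_congr rfl fun i _ => by ring
  have h2 : ∑ j, (((x j : ℤ) : ℝ) - adj d A w j) ^ 2 =
      ∑ j : ι, ((x j : ℤ) : ℝ) ^ 2 - 2 * ∑ j, ((x j : ℤ) : ℝ) * adj d A w j +
        ∑ j, (adj d A w j) ^ 2 := by
    rw [mul_sum, ← sum_sub_distrib, ← sum_add_distrib]
    exact sum_congr rfl fun i _ => by ring
  have h3 : ∑ j : ι, ((x j : ℤ) : ℝ) ^ 2 = Fintype.card ι := by
    simp_rw [units_sq]; simp
  have h4 : Fintype.card ι * ∑ j, ((x j : ℤ) : ℝ) * adj d A w j = gam ι d * ∑ i, mv A x i * w i := by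
    unfold adj mv
    simp_rw [sum_mul]
    rw [sum_comm, mul_sum, mul_sum]
    refine sum_congr rfl fun j _ => ?_
    have e1 : (Fintype.card ι : ℝ) * (((x j : ℤ) : ℝ) *
        (gam ι d * (∑ i, (A i j : ℝ) * (w i : ℝ)) / Fintype.card ι)) =
        gam ι d * (((x j : ℤ) : ℝ) * ∑ i, (A i j : ℝ) * (w i : ℝ)) := by
      field_simp
    rw [e1]
    congr 1
    rw [mul_sum]
    exact sum_congr rfl fun i _ => by ring
  rw [h1, h2, h3, had_norm hA, adj_norm hA, gam_sq]
  have h5 : (Fintype.card ι : ℝ) * ((Fintype.card ι : ℝ) - 2 * ∑ j, ((x j : ℤ) : ℝ) * adj d A w j +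
      (∑ i, (w i : ℝ)^2) / 2 ^ d) = (Fintype.card ι : ℝ)^2 -
      2 * (Fintype.card ι * ∑ j, ((x j : ℤ) : ℝ) * adj d A w j) +
      (Fintype.card ι : ℝ) / 2 ^ d * ∑ i, (w i : ℝ)^2 := by ring
  rw [h5, h4]
  ring

lemma Z_had [Nonempty ι] {A : ι → ι → ℤ} (hA : IsHad A) (β : ℝ) (d : ℕ) (w : ι → ℤ) :
    Z β d A w = ∑ x : ι → ℤˣ, Real.exp (-(β * ∑ j, (((x j : ℤ) : ℝ) - adj d A w j) ^ 2)) := by
  have hM : (0:ℝ) < Fintype.card ι := by exact_mod_cast Fintype.card_pos
  unfold Z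
  refine sum_congr rfl fun x _ => ?_
  rw [had_dist hA]
  congr 2
  field_simp

lemma Z_le_one [Nonempty ι] {A : ι → ι → ℤ} (hA : IsHad A) (β : ℝ) (hβ : 0 ≤ β) (d : ℕ)
    (w : ι → ℤ) : Z β d A w ≤ (1 + Real.exp (-β)) ^ Fintype.card ι := by
  rw [Z_had hA]
  have h1 : ∑ x : ι → ℤˣ, Real.exp (-(β * ∑ j, (((x j : ℤ) : ℝ) - adj d A w j) ^ 2)) =
      ∏ j : ι, ∑ e : ℤˣ, Real.exp (-(β * (((e : ℤ) : ℝ) - adj d A w j) ^ 2)) := by
    rw [prod_univ_sum]
    rw [Fintype.piFinset_univ]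
    refine sum_congr rfl fun x _ => ?_
    rw [← Real.exp_sum]
    congr 1
    rw [mul_sum, sum_neg_distrib]
  rw [h1]
  calc ∏ j : ι, ∑ e : ℤˣ, Real.exp (-(β * (((e : ℤ) : ℝ) - adj d A w j) ^ 2))
      ≤ ∏ _j : ι, (1 + Real.exp (-β)) := by
        apply prod_le_prod
        · intro j _; exact sum_nonneg fun e _ => (Real.exp_pos _).le
        · intro j _
          have h2 : (univ : Finset ℤˣ) = {1, -1} := by decide
          rw [h2, sum_pair (by decide)]
          set r := adj d A w j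
          push_cast
          rcases le_total 0 r with hr | hr
          · have e1 : Real.exp (-(β * (1 - r)^2)) ≤ 1 := by
              rw [← Real.exp_zero]; apply Real.exp_le_exp.mpr
              nlinarith [mul_nonneg hβ (sq_nonneg (1 - r))]
            have e2 : Real.exp (-(β * (-1 - r)^2)) ≤ Real.exp (-β) := by
              apply Real.exp_le_exp.mpr
              have : 1 ≤ (-1 - r)^2 := by nlinarith
              nlinarith
            exact add_le_add e1 e2
          · have e1 : Real.exp (-(β * (1 - r)^2)) ≤ Real.exp (-β) := by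
              apply Real.exp_le_exp.mpr
              have : 1 ≤ (1 - r)^2 := by nlinarith
              nlinarith
            have e2 : Real.exp (-(β * (-1 - r)^2)) ≤ 1 := by
              rw [← Real.exp_zero]; apply Real.exp_le_exp.mpr
              nlinarith [mul_nonneg hβ (sq_nonneg (-1 - r))]
            linarith
    _ = _ := by rw [prod_const, card_univ]

lemma card_signs : (Fintype.card (ι → ℤˣ) : ℝ) = 2 ^ Fintype.card ι := by
  rw [Fintype.card_fun, Fintype.card_units_int]; push_cast; rfl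

lemma Z_le_norm [Nonempty ι] {A : ι → ι → ℤ} (hA : IsHad A) (β : ℝ) (hβ : 0 ≤ β) (d : ℕ)
    (w : ι → ℤ) : Z β d A w ≤ 2 ^ Fintype.card ι *
      Real.exp (-(β * ((Fintype.card ι : ℝ) / 4 - (∑ i, (w i : ℝ) ^ 2) / (3 * 2 ^ d)))) := by
  rw [Z_had hA]
  have h1 : ∀ x : ι → ℤˣ, Real.exp (-(β * ∑ j, (((x j : ℤ) : ℝ) - adj d A w j) ^ 2)) ≤
      Real.exp (-(β * ((Fintype.card ι : ℝ) / 4 - (∑ i, (w i : ℝ) ^ 2) / (3 * 2 ^ d)))) := by
    intro x
    apply Real.exp_le_exp.mpr
    have h2 : (Fintype.card ι : ℝ) / 4 - (∑ i, (w i : ℝ) ^ 2) / (3 * 2 ^ d) ≤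
        ∑ j, (((x j : ℤ) : ℝ) - adj d A w j) ^ 2 := by
      have h3 : (Fintype.card ι : ℝ) / 4 - (∑ i, (w i : ℝ) ^ 2) / (3 * 2 ^ d) =
          ∑ j : ι, (((x j : ℤ) : ℝ) ^ 2 / 4 - (adj d A w j) ^ 2 / 3) := by
        rw [sum_sub_distrib, ← sum_div, ← sum_div, adj_norm hA]
        simp_rw [units_sq]
        simp only [sum_const, card_univ, nsmul_eq_mul, mul_one]
        congr 1
        rw [div_div]; ring
      rw [h3]
      apply sum_le_sum
      intro j _
      nlinarith [sq_nonneg (3 * ((x j : ℤ) : ℝ) - 4 * adj d A w j)]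
    nlinarith
  calc ∑ x : ι → ℤˣ, Real.exp (-(β * ∑ j, (((x j : ℤ) : ℝ) - adj d A w j) ^ 2))
      ≤ ∑ _x : ι → ℤˣ, Real.exp (-(β * ((Fintype.card ι : ℝ) / 4 -
          (∑ i, (w i : ℝ) ^ 2) / (3 * 2 ^ d)))) := sum_le_sum fun x _ => h1 x
    _ = _ := by rw [sum_const, card_univ, nsmul_eq_mul, card_signs]

/-- One-dimensional theta-type bound. -/
lemma geom_half (G : Finset ℕ) : ∑ n ∈ G, ((1:ℝ)/2) ^ n ≤ 2 := by
  have h := (summable_geometric_two).sum_le_tsum G (fun n _ => by positivity)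
  rwa [tsum_geometric_two] at h

lemma theta_bound (z : ℝ) (F : Finset ℤ) : ∑ k ∈ F, Real.exp (-(4 * (z - k) ^ 2)) ≤ 3 := by
  set k0 := round z with hk0
  have hz : |z - k0| ≤ 1 / 2 := abs_sub_round z
  have h1 : ∀ k : ℤ, Real.exp (-(4 * (z - k) ^ 2)) ≤ ((1:ℝ)/2) ^ (k - k0).natAbs := by
    intro k
    have he : Real.exp (-1) ≤ 1 / 2 := by
      have := Real.add_one_le_exp (1:ℝ)
      rw [Real.exp_neg]
      rw [inv_eq_one_div]
      apply one_div_le_one_div_of_le (by norm_num)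
      linarith
    have h2 : Real.exp (-(4 * (z - k) ^ 2)) ≤ Real.exp (-1) ^ (k - k0).natAbs := by
      rw [← Real.exp_nat_mul]
      apply Real.exp_le_exp.mpr
      have h3 : (((k - k0).natAbs : ℕ) : ℝ) = |((k - k0 : ℤ) : ℝ)| := by
        rw [Nat.cast_natAbs]; push_cast; rfl
      rw [h3]
      rcases eq_or_ne k k0 with h | h
      · subst h; simp; positivity
      · have h4 : (1:ℝ) ≤ |((k - k0 : ℤ) : ℝ)| := by
          rw [← Int.cast_abs]
          have : 1 ≤ |k - k0| := Int.one_le_abs (sub_ne_zero.mpr h)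
          exact_mod_cast this
        set D := |((k - k0 : ℤ) : ℝ)| with hD
        have h5 : D ≤ |z - k| + |z - k0| := by
          rw [hD]; push_cast
          have : (k:ℝ) - k0 = (z - k0) - (z - k) := by ring
          rw [this]
          have := abs_sub (z - k0) (z - (k:ℝ))
          linarith
        have h6 : D / 2 ≤ |z - k| := by linarith
        have h7 : (D/2)^2 ≤ (z - k)^2 := by
          rw [← sq_abs (z - k)]
          exact pow_le_pow_left₀ (by linarith) h6 2
        nlinarith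
    exact h2.trans (pow_le_pow_left₀ (Real.exp_pos _).le he _)
  refine (sum_le_sum fun k _ => h1 k).trans ?_
  rw [← sum_filter_add_sum_filter_not F (fun k => k0 ≤ k)]
  have hA : ∑ k ∈ F.filter (fun k => k0 ≤ k), ((1:ℝ)/2) ^ (k - k0).natAbs ≤ 2 := by
    rw [← sum_image (s := F.filter (fun k => k0 ≤ k)) (g := fun k : ℤ => (k - k0).natAbs)
      (f := fun n : ℕ => ((1:ℝ)/2) ^ n)]
    · exact geom_half _
    · intro a ha b hb hab
      have ha' := (mem_filter.mp ha).2
      have hb' := (mem_filter.mp hb).2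
      have hab' : (a - k0).natAbs = (b - k0).natAbs := hab
      omega
  have hB : ∑ k ∈ F.filter (fun k => ¬ k0 ≤ k), ((1:ℝ)/2) ^ (k - k0).natAbs ≤ 1 := by
    have e1 : ∀ k ∈ F.filter (fun k => ¬ k0 ≤ k), ((1:ℝ)/2) ^ (k - k0).natAbs =
        1/2 * ((1:ℝ)/2) ^ ((k - k0).natAbs - 1) := by
      intro k hk
      have hk' := (mem_filter.mp hk).2
      have : (k - k0).natAbs = ((k - k0).natAbs - 1) + 1 := by omega
      conv_lhs => rw [this, pow_succ]
      ring
    rw [sum_congr rfl e1, ← mul_sum]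
    rw [← sum_image (s := F.filter (fun k => ¬ k0 ≤ k)) (g := fun k : ℤ => (k - k0).natAbs - 1)
      (f := fun n : ℕ => ((1:ℝ)/2) ^ n)]
    · have := geom_half ((F.filter (fun k => ¬ k0 ≤ k)).image (fun k : ℤ => (k - k0).natAbs - 1))
      linarith
    · intro a ha b hb hab
      have ha' := (mem_filter.mp ha).2
      have hb' := (mem_filter.mp hb).2
      have hab' : (a - k0).natAbs - 1 = (b - k0).natAbs - 1 := hab
      omega
  linarith

lemma Z_sum_le [Nonempty ι] (A : ι → ι → ℤ) (d : ℕ) (F : Finset (ι → ℤ)) :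
    ∑ w ∈ F, Z (4 * 2 ^ d) d A w ≤ 6 ^ Fintype.card ι := by
  have hM : (0:ℝ) < Fintype.card ι := by exact_mod_cast Fintype.card_pos
  unfold Z
  rw [sum_comm]
  have hg : 0 < gam ι d := by unfold gam; positivity
  have h1 : ∀ x : ι → ℤˣ, ∑ w ∈ F, Real.exp (-(4 * 2 ^ d / Fintype.card ι *
      ∑ i, (mv A x i - gam ι d * w i) ^ 2)) ≤ 3 ^ Fintype.card ι := by
    intro x
    have h2 : ∀ w : ι → ℤ, Real.exp (-(4 * 2 ^ d / Fintype.card ι *
        ∑ i, (mv A x i - gam ι d * w i) ^ 2)) =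
        ∏ i, Real.exp (-(4 * (mv A x i / gam ι d - w i) ^ 2)) := by
      intro w
      rw [← Real.exp_sum]
      congr 1
      rw [mul_sum, ← sum_neg_distrib]
      refine sum_congr rfl fun i _ => ?_
      have h3 : mv A x i - gam ι d * w i = gam ι d * (mv A x i / gam ι d - w i) := by
        field_simp
      rw [h3, mul_pow, gam_sq]
      field_simp
    simp_rw [h2]
    -- enclose F in a product
    have h4 : F ⊆ Fintype.piFinset (fun i => F.image (fun w => w i)) := by
      intro w hw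
      rw [Fintype.mem_piFinset]
      intro i; exact mem_image_of_mem _ hw
    refine (sum_le_sum_of_subset_of_nonneg h4 fun w _ _ =>
      prod_nonneg fun i _ => (Real.exp_pos _).le).trans ?_
    rw [← prod_univ_sum (fun i => F.image (fun w => w i))
      (fun i k => Real.exp (-(4 * (mv A x i / gam ι d - (k:ℤ)) ^ 2)))]
    calc ∏ i, ∑ k ∈ F.image (fun w => w i), Real.exp (-(4 * (mv A x i / gam ι d - (k:ℤ)) ^ 2))
        ≤ ∏ _i : ι, (3:ℝ) := by
          apply prod_le_prod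
          · intro i _; exact sum_nonneg fun k _ => (Real.exp_pos _).le
          · intro i _; exact theta_bound _ _
      _ = _ := by rw [prod_const, card_univ]
  calc ∑ x : ι → ℤˣ, ∑ w ∈ F, Real.exp (-(4 * 2 ^ d / Fintype.card ι *
      ∑ i, (mv A x i - gam ι d * w i) ^ 2)) ≤ ∑ _x : ι → ℤˣ, (3:ℝ) ^ Fintype.card ι :=
        sum_le_sum fun x _ => h1 x
    _ = 6 ^ Fintype.card ι := by
        rw [sum_const, card_univ, nsmul_eq_mul, card_signs, ← mul_pow]; norm_num

end Z

end Pool.Agent.Helper31.GB
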