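import Mathlib
import Pool.Agent.Helper31.GB.Counting
import Pool.Agent.Helper31.GB.Analytic
import Pool.Agent.Helper31.GB.Entropy
import Pool.Agent.Helper31.GB.Had

set_option autoImplicit false

namespace Pool.Agent.Helper31.GB

open Finset

/-- `W` dominates, on average, the soft counts of Hadamard matrices. -/
structure Pre (ι : Type) [Fintype ι] [DecidableEq ι] (β : ℝ) (d : ℕ) (W : (ι → ℤ) → ℝ) : Prop where
  nonneg : ∀ w, 0 ≤ W w
  u1 : ∀ w, W w ≤ (1 + Real.exp (-β)) ^ Fintype.card ι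
  u2 : ∀ F : Finset (ι → ℤ), ∑ w ∈ F, W w ≤ 6 ^ Fintype.card ι
  u4 : ∀ w : ι → ℤ, W w ≤ 2 ^ Fintype.card ι *
      Real.exp (-(β * ((Fintype.card ι : ℝ) / 4 - (∑ i, (w i : ℝ) ^ 2) / (3 * 2 ^ d))))
  dom : ∀ (J : Type) (F : Finset J) (c : J → ℝ) (w : J → ι → ℤ), (∀ j ∈ F, 0 ≤ c j) →
    ∃ A, IsHad A ∧ ∑ j ∈ F, c j * Z β d A (w j) ≤ ∑ j ∈ F, c j * W (w j)

lemma Pre.base {ι : Type} [Fintype ι] [DecidableEq ι] [Nonempty ι] {A : ι → ι → ℤ}
    (hA : IsHad A) (d : ℕ) : Pre ι (4 * 2 ^ d) d (Z (4 * 2 ^ d) d A) where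
  nonneg := Z_nonneg _ _ _
  u1 := Z_le_one hA _ (by positivity) _
  u2 := Z_sum_le A d
  u4 := Z_le_norm hA _ (by positivity) _
  dom := fun _ _ _ _ _ => ⟨A, hA, le_rfl⟩

section avg

variable {ι : Type} [Fintype ι] [DecidableEq ι]

/-- Average over permutations of the coordinates. -/
noncomputable def Avg (W : (ι → ℤ) → ℝ) (w : ι → ℤ) : ℝ :=
  (∑ P : Equiv.Perm ι, W (w ∘ P)) / (Fintype.card ι).factorial

lemma Avg_inv (W : (ι → ℤ) → ℝ) (w : ι → ℤ) (Q : Equiv.Perm ι) : Avg W (w ∘ Q) = Avg W w := by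
  unfold Avg
  congr 1
  rw [← Equiv.sum_comp (Equiv.mulLeft Q) (fun P : Equiv.Perm ι => W (w ∘ P))]
  refine sum_congr rfl fun P _ => ?_
  rfl

lemma fac_pos : (0:ℝ) < (Fintype.card ι).factorial := by
  exact_mod_cast (Fintype.card ι).factorial_pos

lemma Avg_le_of_forall (W : (ι → ℤ) → ℝ) (w : ι → ℤ) (c : ℝ) (h : ∀ P : Equiv.Perm ι, W (w ∘ P) ≤ c) :
    Avg W w ≤ c := by
  unfold Avg
  rw [div_le_iff₀ fac_pos]
  calc ∑ P : Equiv.Perm ι, W (w ∘ P) ≤ ∑ _P : Equiv.Perm ι, c := sum_le_sum fun P _ => h P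
    _ = c * (Fintype.card ι).factorial := by
        rw [sum_const, card_univ, Fintype.card_perm, nsmul_eq_mul]; ring

lemma Pre.avg {β : ℝ} {d : ℕ} {W : (ι → ℤ) → ℝ} (h : Pre ι β d W) : Pre ι β d (Avg W) where
  nonneg := fun w => div_nonneg (sum_nonneg fun P _ => h.nonneg _) fac_pos.le
  u1 := fun w => Avg_le_of_forall W w _ fun P => h.u1 _
  u2 := by
    intro F
    unfold Avg
    rw [← sum_div, sum_comm, div_le_iff₀ fac_pos]
    calc ∑ P : Equiv.Perm ι, ∑ w ∈ F, W (w ∘ P)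
        ≤ ∑ _P : Equiv.Perm ι, (6:ℝ) ^ Fintype.card ι := by
          apply sum_le_sum
          intro P _
          have : ∑ w ∈ F, W (w ∘ P) = ∑ w ∈ F.image (fun w : ι → ℤ => w ∘ P), W w := by
            rw [sum_image]
            intro a _ b _ hab
            funext i
            have := congrFun hab (P.symm i)
            simpa using this
          rw [this]
          exact h.u2 _
      _ = _ := by
          rw [sum_const, card_univ, Fintype.card_perm, nsmul_eq_mul]; ring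
  u4 := by
    intro w
    apply Avg_le_of_forall
    intro P
    have := h.u4 (w ∘ P)
    have h2 : ∑ i, (((w ∘ P) i : ℤ) : ℝ) ^ 2 = ∑ i, (w i : ℝ) ^ 2 :=
      Equiv.sum_comp P (fun i => (w i : ℝ) ^ 2)
    rw [h2] at this
    exact this
  dom := by
    intro J F c w hc
    -- choose a permutation that is at least as good as the average
    have hex : ∃ P : Equiv.Perm ι, ∑ j ∈ F, c j * W (w j ∘ P) ≤ ∑ j ∈ F, c j * Avg W (w j) := by
      by_contra hne
      push Not at hne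
      have h1 : ∑ _P : Equiv.Perm ι, (∑ j ∈ F, c j * Avg W (w j)) <
          ∑ P : Equiv.Perm ι, ∑ j ∈ F, c j * W (w j ∘ P) :=
        sum_lt_sum_of_nonempty univ_nonempty fun P _ => hne P
      rw [sum_const, card_univ, Fintype.card_perm, nsmul_eq_mul, sum_comm] at h1
      have h2 : ∀ j, ∑ P : Equiv.Perm ι, c j * W (w j ∘ P) =
          (Fintype.card ι).factorial * (c j * Avg W (w j)) := by
        intro j
        rw [← mul_sum]
        unfold Avg
        have := (fac_pos (ι := ι)).ne'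
        field_simp
      simp_rw [h2] at h1
      rw [← mul_sum] at h1
      exact lt_irrefl _ h1
    obtain ⟨P, hP⟩ := hex
    obtain ⟨A, hA, hAle⟩ := h.dom J F c (fun j => w j ∘ P) hc
    refine ⟨fun i j => A (P.symm i) j, hA.perm P.symm, ?_⟩
    simp_rw [Z_perm]
    exact hAle.trans hP

end avg

section mergeW

variable {ι : Type} [Fintype ι] [DecidableEq ι]

/-- Sum part. -/
def us (w : ι ⊕ ι → ℤ) (i : ι) : ℤ := w (Sum.inl i) + w (Sum.inr i)
/-- Difference part. -/
def vs (w : ι ⊕ ι → ℤ) (i : ι) : ℤ := w (Sum.inl i) - w (Sum.inr i)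

/-- Product functional on the doubled index set. -/
noncomputable def mergeW (W : (ι → ℤ) → ℝ) (w : ι ⊕ ι → ℤ) : ℝ := W (us w) * W (vs w)

lemma uv_inj {w w' : ι ⊕ ι → ℤ} (h1 : us w = us w') (h2 : vs w = vs w') : w = w' := by
  funext a
  rcases a with i | i
  · have e1 := congrFun h1 i
    have e2 := congrFun h2 i
    unfold us at e1; unfold vs at e2; omega
  · have e1 := congrFun h1 i
    have e2 := congrFun h2 i
    unfold us at e1; unfold vs at e2; omega

lemma Pre.merge [Nonempty ι] {β : ℝ} {d : ℕ} {W : (ι → ℤ) → ℝ} (h : Pre ι β (d+1) W) :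
    Pre (ι ⊕ ι) β d (mergeW W) where
  nonneg := fun w => mul_nonneg (h.nonneg _) (h.nonneg _)
  u1 := by
    intro w
    rw [Fintype.card_sum, pow_add]
    exact mul_le_mul (h.u1 _) (h.u1 _) (h.nonneg _) (by positivity)
  u2 := by
    intro F
    rw [Fintype.card_sum, pow_add]
    unfold mergeW
    let φ : (ι ⊕ ι → ℤ) → (ι → ℤ) × (ι → ℤ) := fun w => (us w, vs w)
    have hφ : Function.Injective φ := by
      intro w w' hh
      exact uv_inj (congrArg Prod.fst hh) (congrArg Prod.snd hh)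
    have h1 : ∑ w ∈ F, W (us w) * W (vs w) = ∑ q ∈ F.image φ, W q.1 * W q.2 := by
      rw [sum_image (fun x _ y _ hh => hφ hh)]
    rw [h1]
    have h2 : F.image φ ⊆ (F.image us) ×ˢ (F.image vs) := by
      intro q hq
      obtain ⟨p, hp, rfl⟩ := mem_image.mp hq
      rw [mem_product]
      exact ⟨mem_image_of_mem _ hp, mem_image_of_mem _ hp⟩
    refine (sum_le_sum_of_subset_of_nonneg h2 fun q _ _ =>
      mul_nonneg (h.nonneg _) (h.nonneg _)).trans ?_
    rw [sum_product]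
    simp_rw [← mul_sum]
    rw [← sum_mul]
    exact mul_le_mul (h.u2 _) (h.u2 _) (sum_nonneg fun s _ => h.nonneg s) (by positivity)
  u4 := by
    intro w
    have h1 := h.u4 (us w)
    have h2 := h.u4 (vs w)
    have h3 : mergeW W w ≤ (2 ^ Fintype.card ι *
      Real.exp (-(β * ((Fintype.card ι : ℝ) / 4 - (∑ i, (us w i : ℝ) ^ 2) / (3 * 2 ^ (d+1)))))) *
      (2 ^ Fintype.card ι *
      Real.exp (-(β * ((Fintype.card ι : ℝ) / 4 - (∑ i, (vs w i : ℝ) ^ 2) / (3 * 2 ^ (d+1)))))) :=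
      mul_le_mul h1 h2 (h.nonneg _) (by positivity)
    refine h3.trans (le_of_eq ?_)
    have h4 : ∑ i, (us w i : ℝ) ^ 2 + ∑ i, (vs w i : ℝ) ^ 2 = 2 * ∑ a, (w a : ℝ) ^ 2 := by
      rw [Fintype.sum_sum_type, ← sum_add_distrib, ← sum_add_distrib, mul_sum]
      refine sum_congr rfl fun i _ => ?_
      unfold us vs; push_cast; ring
    rw [Fintype.card_sum, pow_add (2:ℝ) (Fintype.card ι) (Fintype.card ι)]
    rw [show (2 ^ Fintype.card ι *
      Real.exp (-(β * ((Fintype.card ι : ℝ) / 4 - (∑ i, (us w i : ℝ) ^ 2) / (3 * 2 ^ (d+1)))))) *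
      (2 ^ Fintype.card ι *
      Real.exp (-(β * ((Fintype.card ι : ℝ) / 4 - (∑ i, (vs w i : ℝ) ^ 2) / (3 * 2 ^ (d+1)))))) =
      (2 ^ Fintype.card ι * 2 ^ Fintype.card ι) *
      (Real.exp (-(β * ((Fintype.card ι : ℝ) / 4 - (∑ i, (us w i : ℝ) ^ 2) / (3 * 2 ^ (d+1))))) *
      Real.exp (-(β * ((Fintype.card ι : ℝ) / 4 - (∑ i, (vs w i : ℝ) ^ 2) / (3 * 2 ^ (d+1))))))
      by ring]
    rw [← Real.exp_add]
    congr 2
    have h5 : -(β * ((Fintype.card ι : ℝ) / 4 - (∑ i, (us w i : ℝ) ^ 2) / (3 * 2 ^ (d+1)))) +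
        -(β * ((Fintype.card ι : ℝ) / 4 - (∑ i, (vs w i : ℝ) ^ 2) / (3 * 2 ^ (d+1)))) =
        -(β * ((Fintype.card ι : ℝ) / 4 + (Fintype.card ι : ℝ) / 4 -
          (∑ i, (us w i : ℝ) ^ 2 + ∑ i, (vs w i : ℝ) ^ 2) / (3 * 2 ^ (d+1)))) := by ring
    rw [h5, h4]
    push_cast
    rw [pow_succ]
    field_simp
  dom := by
    intro J F c w hc
    obtain ⟨B, hB, hBle⟩ := h.dom J F (fun j => c j * W (us (w j))) (fun j => vs (w j))
      (fun j hj => mul_nonneg (hc j hj) (h.nonneg _))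
    obtain ⟨A, hA, hAle⟩ := h.dom J F (fun j => c j * Z β (d+1) B (vs (w j))) (fun j => us (w j))
      (fun j hj => mul_nonneg (hc j hj) (Z_nonneg _ _ _ _))
    refine ⟨GB.merge A B, hA.merge hB, ?_⟩
    simp_rw [Z_merge]
    calc ∑ j ∈ F, c j * (Z β (d+1) A (fun i => w j (Sum.inl i) + w j (Sum.inr i)) *
          Z β (d+1) B (fun i => w j (Sum.inl i) - w j (Sum.inr i)))
        = ∑ j ∈ F, c j * Z β (d+1) B (vs (w j)) * Z β (d+1) A (us (w j)) := by
          refine sum_congr rfl fun j _ => ?_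
          unfold us vs
          ring
      _ ≤ ∑ j ∈ F, c j * Z β (d+1) B (vs (w j)) * W (us (w j)) := hAle
      _ = ∑ j ∈ F, c j * W (us (w j)) * Z β (d+1) B (vs (w j)) :=
          sum_congr rfl fun j _ => by ring
      _ ≤ ∑ j ∈ F, c j * W (us (w j)) * W (vs (w j)) := hBle
      _ = _ := sum_congr rfl fun j _ => by unfold mergeW; ring

end mergeW

/-- Growth: exponentials beat polynomials. -/
lemma growth (K : ℕ) (c : ℝ) (hc : 0 < c) :
    ∃ M0 : ℕ, ∀ M : ℕ, M0 ≤ M → (6 * ((M:ℝ) + 1)) ^ K ≤ Real.exp (c * M) := by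
  obtain ⟨N, hN⟩ := exists_nat_ge (12 ^ K * ((K+1).factorial : ℝ) / c ^ (K+1))
  refine ⟨max N 1, fun M hM => ?_⟩
  have hM1 : 1 ≤ M := (le_max_right _ _).trans hM
  have hMN : (N:ℝ) ≤ M := by exact_mod_cast (le_max_left _ _).trans hM
  have hMr : (1:ℝ) ≤ M := by exact_mod_cast hM1
  have hM0 : (0:ℝ) < M := by linarith
  have h1 := Real.pow_div_factorial_le_exp (c * M) (by positivity) (K+1)
  refine le_trans ?_ h1
  have hf : (0:ℝ) < (K+1).factorial := by exact_mod_cast (K+1).factorial_pos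
  rw [le_div_iff₀ hf]
  have h2 : (6 * ((M:ℝ) + 1)) ^ K ≤ (12 * M) ^ K :=
    pow_le_pow_left₀ (by positivity) (by linarith) K
  calc (6 * ((M:ℝ) + 1)) ^ K * (K+1).factorial ≤ (12 * M) ^ K * (K+1).factorial :=
        mul_le_mul_of_nonneg_right h2 hf.le
    _ = M ^ K * (12 ^ K * ((K+1).factorial : ℝ)) := by rw [mul_pow]; ring
    _ ≤ M ^ K * (M * c ^ (K+1)) := by
        apply mul_le_mul_of_nonneg_left _ (by positivity)
        have h3 := hN.trans hMN
        rwa [div_le_iff₀ (by positivity)] at h3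
    _ = (c * M) ^ (K+1) := by rw [mul_pow, pow_succ (M:ℝ)]; ring

lemma pf_le (M k : ℕ) : pf (M + M) k ≤ (6 * ((M:ℝ) + 1)) ^ k := by
  unfold pf
  apply pow_le_pow_left₀ (by positivity)
  have h1 : Real.exp 1 ≤ 3 := by
    have := Real.exp_one_lt_d9; linarith
  push_cast
  have hM : (0:ℝ) ≤ M := Nat.cast_nonneg M
  nlinarith

/-- Inductive bound. -/
def Bd (ι : Type) [Fintype ι] (d : ℕ) (W : (ι → ℤ) → ℝ) (x y : ℝ) : Prop :=
  ∀ w : ι → ℤ, (∀ i, |w i| ≤ 2 ^ d) → W w ≤ Real.exp (-((1 - x) * S w) + Fintype.card ι * y)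

/-- The per-step improvement constant. -/
noncomputable def K2 : ℝ := K1 / 4880

lemma K2_pos : 0 < K2 := by unfold K2; have := K1_pos; positivity

lemma image_card_le {α : Type} [Fintype α] (w : α → ℤ) (d : ℕ) (hb : ∀ a, |w a| ≤ 2 ^ d) :
    (univ.image w).card ≤ 2 ^ (d + 2) := by
  classical
  have hsub : univ.image w ⊆ Icc (-(2:ℤ)^d) (2^d) := by
    intro c hc
    obtain ⟨a, _, rfl⟩ := mem_image.mp hc
    rw [mem_Icc]
    exact abs_le.mp (hb a)
  have h3 := card_le_card hsub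
  rw [Int.card_Icc] at h3
  have h4 : ((2:ℤ)^d + 1 - -(2:ℤ)^d).toNat ≤ 2 ^ (d+2) := by
    have h5 : (1:ℤ) ≤ 2^d := one_le_pow₀ (by norm_num)
    have h6 : ((2:ℤ)^d + 1 - -(2:ℤ)^d) ≤ ((2 ^ (d+2) : ℕ) : ℤ) := by
      push_cast; rw [pow_add]; linarith
    exact Int.toNat_le.mpr h6
  exact h3.trans h4

theorem step (d : ℕ) : ∃ M0 : ℕ, ∀ (ι : Type) [Fintype ι] [DecidableEq ι] [Nonempty ι],
    M0 ≤ Fintype.card ι → ∀ (β : ℝ) (W : (ι → ℤ) → ℝ) (x y : ℝ), Real.exp (-β) ≤ 1 / 40 →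
    1 / 20 ≤ x → x ≤ 1 / 2 → 1 / 20 ≤ y → Pre ι β (d+1) W → Bd ι (d+1) W x y →
    Bd (ι ⊕ ι) d (Avg (mergeW W)) (max (1/20) (x - K2 / (d+3))) (max (1/20) (y - K2 / (d+3))) := by
  classical
  have hd0 : (0:ℝ) ≤ d := Nat.cast_nonneg d
  set k := 2 ^ (d+2) with hk
  obtain ⟨M0, hM0⟩ := growth (k + k * k) (K1 / (40 * (d+3))) (by have := K1_pos; positivity)
  refine ⟨M0, ?_⟩
  intro ι _ _ _ hcard β W x y hβ hx1 hx2 hy hPre hBd w hw
  set M := Fintype.card ι with hM
  have hMpos : (0:ℝ) < M := by rw [hM]; exact_mod_cast Fintype.card_pos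
  have hcard2 : Fintype.card (ι ⊕ ι) = M + M := Fintype.card_sum
  have hpre' : Pre (ι ⊕ ι) β d (Avg (mergeW W)) := hPre.merge.avg
  set δ := K2 / ((d:ℝ)+3) with hδ
  have hδ0 : 0 < δ := by rw [hδ]; have := K2_pos; positivity
  set x' := max (1/20) (x - δ) with hx'
  set y' := max (1/20) (y - δ) with hy'
  have hx'1 : 1/20 ≤ x' := le_max_left _ _
  have hy'1 : 1/20 ≤ y' := le_max_left _ _
  have hx'2 : x - δ ≤ x' := le_max_right _ _
  have hy'2 : y - δ ≤ y' := le_max_right _ _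
  have hx'3 : x' ≤ 1 := max_le (by norm_num) (by linarith)
  have hS0 : 0 ≤ S w := S_nonneg w
  have hpoly := hM0 M hcard
  have himg : (univ.image w).card ≤ k := image_card_le w d hw
  rw [hcard2]
  push_cast
  have hone : (1:ℝ) ≤ 6 * ((M:ℝ) + 1) := by linarith
  have hK1le : K1 / (40 * ((d:ℝ)+3)) ≤ 1 := by
    rw [div_le_one (by positivity)]
    have : K1 ≤ 1 := by
      unfold K1
      rw [div_le_one (by norm_num)]
      have : Real.exp (-240) ≤ 1 := Real.exp_le_one_iff.mpr (by norm_num)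
      linarith
    nlinarith
  by_cases hlow : S w < 1 / 40 * (2 * M)
  · -- case (i)
    have h1 := hpre'.u1 w
    refine h1.trans ?_
    rw [hcard2]
    calc (1 + Real.exp (-β)) ^ (M + M) ≤ (Real.exp (1/40)) ^ (M + M) := by
          apply pow_le_pow_left₀ (by positivity)
          have := Real.add_one_le_exp (1/40 : ℝ)
          linarith
      _ = Real.exp ((M + M) * (1/40)) := by
          rw [← Real.exp_nat_mul]; push_cast; rfl
      _ ≤ _ := by
          apply Real.exp_le_exp.mpr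
          nlinarith
  push Not at hlow
  by_cases hhigh : 60 * (2 * (M:ℝ)) < S w
  · -- case (ii)
    have hinv : (∑ P : Equiv.Perm (ι ⊕ ι), Avg (mergeW W) (w ∘ P)) /
        (Fintype.card (ι ⊕ ι)).factorial = Avg (mergeW W) w := by
      simp_rw [Avg_inv]
      rw [sum_const, card_univ, Fintype.card_perm, nsmul_eq_mul]
      have := (fac_pos (ι := ι ⊕ ι)).ne'
      field_simp
    rw [← hinv]
    refine (avg_le w k himg (Avg (mergeW W)) hpre'.nonneg).trans ?_
    have h2 := hpre'.u2 (univ.image (fun P : Equiv.Perm (ι ⊕ ι) => w ∘ P))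
    rw [hcard2] at h2 ⊢
    have h3 : pf (M + M) k ≤ Real.exp M := by
      refine (pf_le M k).trans (le_trans ?_ (hpoly.trans ?_))
      · exact pow_le_pow_right₀ hone (by omega)
      · apply Real.exp_le_exp.mpr
        calc K1 / (40 * ((d:ℝ)+3)) * M ≤ 1 * M := mul_le_mul_of_nonneg_right hK1le hMpos.le
          _ = M := one_mul _
    have h4 : (6:ℝ) ^ (M + M) ≤ Real.exp (4 * M) := by
      have h5 : (6:ℝ) ≤ Real.exp 2 := by
        have := Real.add_one_le_exp (1:ℝ)
        have h6 : Real.exp 2 = Real.exp 1 * Real.exp 1 := by rw [← Real.exp_add]; norm_num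
        have := Real.exp_one_gt_d9
        nlinarith
      calc (6:ℝ) ^ (M + M) ≤ (Real.exp 2) ^ (M + M) := pow_le_pow_left₀ (by norm_num) h5 _
        _ = Real.exp (4 * M) := by rw [← Real.exp_nat_mul]; push_cast; ring_nf
    calc pf (M + M) k * Real.exp (-(S w)) *
          ∑ v ∈ univ.image (fun P : Equiv.Perm (ι ⊕ ι) => w ∘ P), Avg (mergeW W) v
        ≤ (Real.exp M * Real.exp (-(S w))) * Real.exp (4 * M) := by
          apply mul_le_mul _ (h2.trans h4) (sum_nonneg fun v _ => hpre'.nonneg v) (by positivity)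
          exact mul_le_mul_of_nonneg_right h3 (Real.exp_pos _).le
      _ = Real.exp (M + -(S w) + 4 * M) := by rw [← Real.exp_add, ← Real.exp_add]
      _ ≤ _ := by
          apply Real.exp_le_exp.mpr
          nlinarith
  push Not at hhigh
  -- case (iii)
  have hunf : Avg (mergeW W) w = (∑ P : Equiv.Perm (ι ⊕ ι), mergeW W (w ∘ P)) /
        (Fintype.card (ι ⊕ ι)).factorial := rfl
  rw [hunf]
  refine (avg_le w k himg (mergeW W) hPre.merge.nonneg).trans ?_
  set O := univ.image (fun P : Equiv.Perm (ι ⊕ ι) => w ∘ P) with hO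
  set G := K1 / ((d:ℝ)+3) with hG
  let zz : (ι ⊕ ι → ℤ) → (ι → ℤ × ℤ) := fun w' i => (w' (Sum.inl i), w' (Sum.inr i))
  have hterm : ∀ w' ∈ O, mergeW W w' ≤ Real.exp (-(S (zz w'))) *
      Real.exp (x * S w - 1/20 * (M * G) + 2 * M * y) := by
    intro w' hw'
    obtain ⟨P, _, rfl⟩ := mem_image.mp hw'
    set w' := w ∘ P with hw'def
    have hSw' : S w' = S w := S_comp_perm w P
    have hbw' : ∀ a, |w' a| ≤ 2 ^ d := fun a => hw (P a)
    have hel : Sum.elim (fun i => w' (Sum.inl i)) (fun i => w' (Sum.inr i)) = w' := by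
      funext a; rcases a with i | i <;> rfl
    have hgain := gain_final (fun i => w' (Sum.inl i)) (fun i => w' (Sum.inr i)) d
      (by rw [hel]; exact hbw') (by rw [hel, hSw']; exact hlow) (by rw [hel, hSw']; exact hhigh)
    obtain ⟨_, _, _, _, hI0⟩ := entropy_gain (fun i => w' (Sum.inl i)) (fun i => w' (Sum.inr i))
    rw [hel, hSw'] at hgain
    have hu : S (fun i => w' (Sum.inl i) + w' (Sum.inr i)) = S (us w') := rfl
    have hv : S (fun i => w' (Sum.inl i) - w' (Sum.inr i)) = S (vs w') := rfl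
    have hz : S (fun i => (w' (Sum.inl i), w' (Sum.inr i))) = S (zz w') := rfl
    rw [hu, hv, hz] at hgain
    rw [hu, hv, hz] at hI0
    have hbu : ∀ i, |us w' i| ≤ 2 ^ (d+1) := by
      intro i
      have h1 := hbw' (Sum.inl i)
      have h2 := hbw' (Sum.inr i)
      unfold us
      rw [pow_succ]
      have := abs_add_le (w' (Sum.inl i)) (w' (Sum.inr i))
      linarith
    have hbv : ∀ i, |vs w' i| ≤ 2 ^ (d+1) := by
      intro i
      have h1 := hbw' (Sum.inl i)
      have h2 := hbw' (Sum.inr i)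
      unfold vs
      rw [pow_succ]
      have := abs_sub (w' (Sum.inl i)) (w' (Sum.inr i))
      linarith
    have hW : mergeW W w' ≤ Real.exp (-((1 - x) * S (us w')) + M * y) *
        Real.exp (-((1 - x) * S (vs w')) + M * y) := by
      unfold mergeW
      exact mul_le_mul (hBd _ hbu) (hBd _ hbv) (hPre.nonneg _) (Real.exp_pos _).le
    refine hW.trans ?_
    rw [← Real.exp_add, ← Real.exp_add]
    apply Real.exp_le_exp.mpr
    set It := S (us w') + S (vs w') - S (zz w') with hIt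
    set Dt := S w - S (zz w') with hDt
    -- -(1-x)(Su + Sv) + 2My ≤ -Sz + x Sw - (1/20) M G + 2 M y
    have e1 : S (us w') + S (vs w') = It + S (zz w') := by rw [hIt]; ring
    have e2 : S w = Dt + S (zz w') := by rw [hDt]; ring
    have hG0 : 0 ≤ M * G := by
      have := K1_pos
      rw [hG]; positivity
    have e3 : 1/20 * (M * G) ≤ x * (Dt + It) := by
      calc 1/20 * (M * G) ≤ x * (M * G) := mul_le_mul_of_nonneg_right hx1 hG0
        _ ≤ x * (Dt + It) := mul_le_mul_of_nonneg_left hgain (by linarith)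
    have e4 : x * It ≤ (1 - x) * It := mul_le_mul_of_nonneg_right (by linarith) hI0
    have e5 : -((1 - x) * S (us w')) + M * y + (-((1 - x) * S (vs w')) + M * y) =
        -((1-x) * (It + S (zz w'))) + 2 * M * y := by rw [← e1]; ring
    rw [e5, e2]
    nlinarith
  have hsum1 : ∑ w' ∈ O, mergeW W w' ≤
      (∑ w' ∈ O, Real.exp (-(S (zz w')))) * Real.exp (x * S w - 1/20 * (M * G) + 2 * M * y) := by
    rw [sum_mul]
    exact sum_le_sum hterm
  have hsum2 : ∑ w' ∈ O, Real.exp (-(S (zz w'))) ≤ ((M:ℝ) + 1) ^ (k * k) := by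
    have hinj : Function.Injective zz := by
      intro a b hab
      funext c
      rcases c with i | i
      · exact congrArg Prod.fst (congrFun hab i)
      · exact congrArg Prod.snd (congrFun hab i)
    have h1 : ∑ w' ∈ O, Real.exp (-(S (zz w'))) = ∑ z ∈ O.image zz, Real.exp (-(S z)) := by
      rw [sum_image (fun x _ y _ hh => hinj hh)]
    rw [h1]
    have h2 := sum_exp_neg_S_le ((univ.image w) ×ˢ (univ.image w)) (O.image zz) (by
      intro z hz i
      obtain ⟨w', hw', rfl⟩ := mem_image.mp hz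
      obtain ⟨P, _, rfl⟩ := mem_image.mp hw'
      rw [mem_product]
      exact ⟨mem_image_of_mem w (mem_univ _), mem_image_of_mem w (mem_univ _)⟩)
    refine h2.trans ?_
    rw [← hM]
    apply pow_le_pow_right₀ (by linarith)
    rw [card_product]
    exact Nat.mul_le_mul himg himg
  have hO0 : 0 ≤ ∑ w' ∈ O, mergeW W w' := sum_nonneg fun v _ => hPre.merge.nonneg v
  rw [hcard2]
  have hpolyfinal : pf (M + M) k * ((M:ℝ) + 1) ^ (k * k) ≤ Real.exp (K1 / (40 * ((d:ℝ)+3)) * M) := by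
    refine le_trans ?_ hpoly
    rw [pow_add]
    apply mul_le_mul (pf_le M k) _ (by positivity) (by positivity)
    exact pow_le_pow_left₀ (by positivity) (by linarith) _
  calc pf (M + M) k * Real.exp (-(S w)) * ∑ w' ∈ O, mergeW W w'
      ≤ pf (M + M) k * Real.exp (-(S w)) *
        (((M:ℝ) + 1) ^ (k * k) * Real.exp (x * S w - 1/20 * (M * G) + 2 * M * y)) := by
        apply mul_le_mul_of_nonneg_left _ (mul_nonneg (pf_pos _ _).le (Real.exp_pos _).le)
        refine hsum1.trans ?_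
        exact mul_le_mul_of_nonneg_right hsum2 (Real.exp_pos _).le
    _ = (pf (M + M) k * ((M:ℝ) + 1) ^ (k * k)) * (Real.exp (-(S w)) *
        Real.exp (x * S w - 1/20 * (M * G) + 2 * M * y)) := by ring
    _ ≤ Real.exp (K1 / (40 * ((d:ℝ)+3)) * M) * (Real.exp (-(S w)) *
        Real.exp (x * S w - 1/20 * (M * G) + 2 * M * y)) := by
        apply mul_le_mul_of_nonneg_right hpolyfinal (by positivity)
    _ = Real.exp (K1 / (40 * ((d:ℝ)+3)) * M + (-(S w) +
        (x * S w - 1/20 * (M * G) + 2 * M * y))) := by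
        rw [← Real.exp_add, ← Real.exp_add]
    _ ≤ _ := by
        apply Real.exp_le_exp.mpr
        have f1 : K1 / (40 * ((d:ℝ)+3)) = G / 40 := by rw [hG]; field_simp
        have f2 : 4880 * δ = G := by rw [hδ, hG]; unfold K2; field_simp
        have f3 : (x - δ) * S w ≤ x' * S w := mul_le_mul_of_nonneg_right hx'2 hS0
        have f4 : ((M:ℝ) + M) * (y - δ) ≤ (M + M) * y' :=
          mul_le_mul_of_nonneg_left hy'2 (by linarith)
        have f5 : δ * S w ≤ δ * (60 * (2 * M)) := mul_le_mul_of_nonneg_left hhigh hδ0.le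
        rw [f1, ← f2]
        nlinarith

end Pool.Agent.Helper31.GB
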