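import Mathlib
import Pool.Agent.Helper31.GB.Step

set_option autoImplicit false

namespace Pool.Agent.Helper31.GB

open Finset

/-- Existence, for all large powers of two, of functionals with the inductive bound. -/
def Q (β : ℝ) (d : ℕ) (x y : ℝ) : Prop :=
  ∃ k0 : ℕ, ∀ k : ℕ, k0 ≤ k → ∃ (ι : Type) (_ : Fintype ι) (_ : DecidableEq ι) (_ : Nonempty ι)
    (W : (ι → ℤ) → ℝ), Fintype.card ι = 2 ^ k ∧ Pre ι β d W ∧ Bd ι d W x y

lemma exists_had (k : ℕ) : ∃ (ι : Type) (_ : Fintype ι) (_ : DecidableEq ι) (_ : Nonempty ι)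
    (A : ι → ι → ℤ), Fintype.card ι = 2 ^ k ∧ IsHad A := by
  induction k with
  | zero =>
    refine ⟨Unit, inferInstance, inferInstance, inferInstance, fun _ _ => 1, by simp, ?_⟩
    exact ⟨fun _ _ => Or.inl rfl, fun _ _ => by simp, fun _ _ => by simp⟩
  | succ k ih =>
    obtain ⟨ι, i1, i2, i3, A, hc, hA⟩ := ih
    refine ⟨ι ⊕ ι, inferInstance, inferInstance, inferInstance, merge A A, ?_, hA.merge hA⟩
    rw [Fintype.card_sum, hc, pow_succ]; ring

lemma pf_le' (M k : ℕ) : pf M k ≤ (6 * ((M:ℝ) + 1)) ^ k := by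
  unfold pf
  apply pow_le_pow_left₀ (by positivity)
  have h1 : Real.exp 1 ≤ 3 := by
    have := Real.exp_one_lt_d9; linarith
  have hM : (0:ℝ) ≤ M := Nat.cast_nonneg M
  nlinarith

lemma Q_base (t : ℕ) : Q (4 * 2 ^ t) t (1/2) 3 := by
  classical
  set k := 2 ^ (t+2) with hk
  obtain ⟨M0, hM0⟩ := growth k 1 (by norm_num)
  refine ⟨M0, fun m hm => ?_⟩
  obtain ⟨ι, i1, i2, i3, A, hc, hA⟩ := exists_had m
  refine ⟨ι, i1, i2, i3, Avg (Z (4 * 2 ^ t) t A), hc, (Pre.base hA t).avg, ?_⟩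
  intro w hw
  set W := Avg (Z (4 * 2 ^ t) t A) with hW
  have hpre : Pre ι (4 * 2 ^ t) t W := (Pre.base hA t).avg
  set M := Fintype.card ι with hM
  have hMM0 : M0 ≤ M := by
    rw [hc]; exact hm.trans (Nat.lt_two_pow_self).le
  have hinv : (∑ P : Equiv.Perm ι, W (w ∘ P)) / (Fintype.card ι).factorial = W w := by
    simp_rw [hW, Avg_inv]
    rw [sum_const, card_univ, Fintype.card_perm, nsmul_eq_mul]
    have := (fac_pos (ι := ι)).ne'
    field_simp
  rw [← hinv]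
  refine (avg_le w k (image_card_le w t hw) W hpre.nonneg).trans ?_
  have h2 := hpre.u2 (univ.image (fun P : Equiv.Perm ι => w ∘ P))
  rw [← hM] at h2 ⊢
  have h3 : pf M k ≤ Real.exp M := by
    refine (pf_le' M k).trans ?_
    have := hM0 M hMM0
    rwa [one_mul] at this
  have h4 : (6:ℝ) ^ M ≤ Real.exp (2 * M) := by
    have h5 : (6:ℝ) ≤ Real.exp 2 := by
      have h6 : Real.exp 2 = Real.exp 1 * Real.exp 1 := by rw [← Real.exp_add]; norm_num
      have := Real.exp_one_gt_d9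
      nlinarith
    calc (6:ℝ) ^ M ≤ (Real.exp 2) ^ M := pow_le_pow_left₀ (by norm_num) h5 _
      _ = Real.exp (2 * M) := by rw [← Real.exp_nat_mul]; ring_nf
  have hS0 : 0 ≤ S w := S_nonneg w
  calc pf M k * Real.exp (-(S w)) * ∑ v ∈ univ.image (fun P : Equiv.Perm ι => w ∘ P), W v
      ≤ (Real.exp M * Real.exp (-(S w))) * Real.exp (2 * M) := by
        apply mul_le_mul _ (h2.trans h4) (sum_nonneg fun v _ => hpre.nonneg v) (by positivity)
        exact mul_le_mul_of_nonneg_right h3 (Real.exp_pos _).le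
    _ = Real.exp (M + -(S w) + 2 * M) := by rw [← Real.exp_add, ← Real.exp_add]
    _ ≤ _ := by
        apply Real.exp_le_exp.mpr
        nlinarith

lemma Q_step (β : ℝ) (d : ℕ) (x y : ℝ) (hβ : Real.exp (-β) ≤ 1 / 40)
    (hx1 : 1 / 20 ≤ x) (hx2 : x ≤ 1 / 2) (hy : 1 / 20 ≤ y) (h : Q β (d+1) x y) :
    Q β d (max (1/20) (x - K2 / (d+3))) (max (1/20) (y - K2 / (d+3))) := by
  obtain ⟨M0, hM0⟩ := step d
  obtain ⟨k0, hk0⟩ := h
  refine ⟨max k0 M0 + 1, fun k hk => ?_⟩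
  have hk1 : 1 ≤ k := by omega
  have hkk0 : k0 ≤ k - 1 := by
    have := le_max_left k0 M0; omega
  have hkM0 : M0 ≤ k - 1 := by
    have := le_max_right k0 M0; omega
  obtain ⟨ι, i1, i2, i3, W, hc, hpre, hbd⟩ := hk0 (k-1) hkk0
  refine ⟨ι ⊕ ι, inferInstance, inferInstance, inferInstance, Avg (mergeW W), ?_,
    hpre.merge.avg, ?_⟩
  · rw [Fintype.card_sum, hc]
    obtain ⟨j, rfl⟩ : ∃ j, k = j + 1 := ⟨k - 1, by omega⟩
    simp only [Nat.add_sub_cancel]
    rw [pow_succ]; ring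
  · apply hM0 ι _ β W x y hβ hx1 hx2 hy hpre hbd
    rw [hc]
    exact hkM0.trans (Nat.lt_two_pow_self).le

/-- Partial sums of the improvements. -/
noncomputable def sg (t n : ℕ) : ℝ := ∑ j ∈ range n, K2 / (((t - (j+1) : ℕ) : ℝ) + 3)

lemma Q_iter (t : ℕ) (hβ : Real.exp (-(4 * 2 ^ t : ℝ)) ≤ 1 / 40) (n : ℕ) (hn : n ≤ t) :
    Q (4 * 2 ^ t) (t - n) (max (1/20) (1/2 - sg t n)) (max (1/20) (3 - sg t n)) := by
  induction n with
  | zero =>
    simp only [sg, range_zero, sum_empty, sub_zero, Nat.sub_zero]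
    have h1 : max (1/20 : ℝ) (1/2) = 1/2 := max_eq_right (by norm_num)
    have h2 : max (1/20 : ℝ) 3 = 3 := max_eq_right (by norm_num)
    rw [h1, h2]
    exact Q_base t
  | succ n ih =>
    have ih' := ih (by omega)
    have hd : t - n = (t - (n+1)) + 1 := by omega
    rw [hd] at ih'
    have hsg0 : 0 ≤ sg t n := by
      unfold sg
      have := K2_pos
      exact sum_nonneg fun j _ => by positivity
    have h := Q_step (4 * 2 ^ t) (t - (n+1)) _ _ hβ (le_max_left _ _)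
      (max_le (by norm_num) (by linarith)) (le_max_left _ _) ih'
    have hs : sg t (n+1) = sg t n + K2 / (((t - (n+1) : ℕ) : ℝ) + 3) := by
      unfold sg; rw [sum_range_succ]
    set δ := K2 / (((t - (n+1) : ℕ) : ℝ) + 3) with hδ
    have hδ0 : 0 < δ := by have := K2_pos; positivity
    have e1 : ∀ c : ℝ, max (1/20) (max (1/20) (c - sg t n) - δ) = max (1/20) (c - sg t (n+1)) := by
      intro c
      rw [hs]
      rcases le_total (1/20 : ℝ) (c - sg t n) with h1 | h1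
      · rw [max_eq_right h1]; congr 1; ring
      · rw [max_eq_left h1, max_eq_left (by linarith), max_eq_left (by linarith)]
    rw [e1, e1] at h
    exact h

lemma sg_large : ∃ t : ℕ, 4 ≤ t ∧ 3 ≤ sg t (t - 1) := by
  have h := Real.tendsto_sum_range_one_div_nat_succ_atTop
  rw [Filter.tendsto_atTop] at h
  have h2 := h (12 / K2)
  rw [Filter.eventually_atTop] at h2
  obtain ⟨N, hN⟩ := h2
  refine ⟨N + 4, by omega, ?_⟩
  have h3 := hN (N + 3) (by omega)
  have hK := K2_pos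
  have h4 : sg (N+4) (N + 4 - 1) = ∑ j ∈ range (N+3), K2 / ((j:ℝ) + 4) := by
    unfold sg
    rw [show N + 4 - 1 = N + 3 by omega]
    rw [← sum_range_reflect]
    refine sum_congr rfl fun j hj => ?_
    rw [mem_range] at hj
    have : N + 4 - (N + 3 - 1 - j + 1) = j + 1 := by omega
    rw [this]; push_cast; ring_nf
  rw [h4]
  have h5 : ∀ j : ℕ, K2 / 4 * (1 / ((j:ℝ) + 1)) ≤ K2 / ((j:ℝ) + 4) := by
    intro j
    have hj : (0:ℝ) ≤ j := Nat.cast_nonneg j
    rw [mul_one_div, div_div, div_le_div_iff_of_pos_left hK (by positivity) (by positivity)]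
    linarith
  calc (3:ℝ) = K2 / 4 * (12 / K2) := by field_simp; norm_num
    _ ≤ K2 / 4 * ∑ i ∈ range (N+3), (1 / ((i:ℝ) + 1)) :=
        mul_le_mul_of_nonneg_left h3 (by positivity)
    _ = ∑ i ∈ range (N+3), K2 / 4 * (1 / ((i:ℝ) + 1)) := by rw [mul_sum]
    _ ≤ _ := sum_le_sum fun j _ => h5 j

lemma Q_one : ∃ t : ℕ, 4 ≤ t ∧ Q (4 * 2 ^ t) 1 (1/20) (1/20) := by
  obtain ⟨t, ht, hs⟩ := sg_large
  refine ⟨t, ht, ?_⟩
  have hβ : Real.exp (-(4 * 2 ^ t : ℝ)) ≤ 1 / 40 := by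
    have h1 : (64:ℝ) ≤ 4 * 2 ^ t := by
      have : (2:ℝ)^4 ≤ 2 ^ t := pow_le_pow_right₀ (by norm_num) ht
      linarith
    rw [Real.exp_neg, inv_eq_one_div]
    apply one_div_le_one_div_of_le (by norm_num)
    have := Real.add_one_le_exp (4 * 2 ^ t : ℝ)
    linarith
  have h := Q_iter t hβ (t - 1) (by omega)
  rw [show t - (t - 1) = 1 by omega] at h
  rw [max_eq_left (by linarith), max_eq_left (by linarith)] at h
  exact h

end Pool.Agent.Helper31.GB
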