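import Mathlib
import Pool.Agent.Helper31.GB.Root

set_option autoImplicit false

namespace Pool.Agent.Helper31.GB

open Finset

/-- Mutual information lower bound at the root. -/
lemma I_root {ι : Type} [Fintype ι] [Nonempty ι] (z1 z2 : ι → ℤ)
    (h1 : ∀ i, z1 i = 1 ∨ z1 i = -1) (h2 : ∀ i, z2 i = 1 ∨ z2 i = -1) (f : ℝ)
    (hf : f = fr (fun i => z1 i - z2 i) 0) :
    (Fintype.card ι : ℝ) * (2 * f * (1 - f)) ≤
      S (fun i => z1 i + z2 i) + S (fun i => z1 i - z2 i) - S (fun i => (z1 i, z2 i)) := by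
  classical
  have hM : (0:ℝ) < Fintype.card ι := by exact_mod_cast Fintype.card_pos
  rw [I_eq]
  set u : ι → ℤ := fun i => z1 i + z2 i with hu
  set v : ι → ℤ := fun i => z1 i - z2 i with hv
  set z : ι → ℤ × ℤ := fun i => (z1 i, z2 i) with hz
  have hzpos : ∀ i, 0 < fr z (z1 i, z2 i) := fun i => fr_pos z i
  have hupos : ∀ i, 0 < fr u (z1 i + z2 i) := fun i => fr_pos u i
  have hvpos : ∀ i, 0 < fr v (z1 i - z2 i) := fun i => fr_pos v i
  have hlog : ∀ i, 1 - fr u (z1 i + z2 i) * fr v (z1 i - z2 i) / fr z (z1 i, z2 i) ≤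
      Real.log (fr z (z1 i, z2 i) / (fr u (z1 i + z2 i) * fr v (z1 i - z2 i))) := by
    intro i
    have h3 := Real.log_le_sub_one_of_pos
      (div_pos (mul_pos (hupos i) (hvpos i)) (hzpos i))
    have h4 : Real.log (fr z (z1 i, z2 i) / (fr u (z1 i + z2 i) * fr v (z1 i - z2 i))) =
        - Real.log (fr u (z1 i + z2 i) * fr v (z1 i - z2 i) / fr z (z1 i, z2 i)) := by
      rw [← Real.log_inv, inv_div]
    rw [h4]; linarith
  refine le_trans ?_ (sum_le_sum fun i _ => hlog i)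
  rw [sum_sub_distrib, sum_const, card_univ, nsmul_eq_mul, mul_one]
  set Y : Finset (ℤ × ℤ) := {(1,1), (1,-1), (-1,1), (-1,-1)} with hY
  have hzY : ∀ i, z i ∈ Y := by
    intro i
    rw [hY, hz]
    rcases h1 i with e1 | e1 <;> rcases h2 i with e2 | e2 <;> simp [e1, e2]
  have hsum : ∑ i, fr u (z1 i + z2 i) * fr v (z1 i - z2 i) / fr z (z1 i, z2 i) ≤
      Fintype.card ι * ∑ p ∈ Y, fr u (p.1 + p.2) * fr v (p.1 - p.2) := by
    have h5 := sum_fiberwise_of_maps_to (s := (univ : Finset ι)) (t := Y) (g := z)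
        (fun a _ => hzY a) (fun i => fr u (z1 i + z2 i) * fr v (z1 i - z2 i) / fr z (z1 i, z2 i))
    rw [← h5, mul_sum]
    apply sum_le_sum
    intro p _
    have h6 : ∀ i ∈ univ.filter (fun i => z i = p),
        fr u (z1 i + z2 i) * fr v (z1 i - z2 i) / fr z (z1 i, z2 i) =
        fr u (p.1 + p.2) * fr v (p.1 - p.2) / fr z p := by
      intro i hi
      have h7 := (mem_filter.mp hi).2
      rw [← h7]
    rw [sum_congr rfl h6, sum_const, nsmul_eq_mul]
    have h8 : ((univ.filter (fun i => z i = p)).card : ℝ) = Fintype.card ι * fr z p := by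
      unfold fr; field_simp
    rw [h8]
    rcases eq_or_lt_of_le (fr_nonneg z p) with h0 | hpos
    · rw [← h0]
      simp only [mul_zero, div_zero]
      exact mul_nonneg hM.le (mul_nonneg (fr_nonneg _ _) (fr_nonneg _ _))
    · apply le_of_eq; field_simp
  have hYsum : ∑ p ∈ Y, fr u (p.1 + p.2) * fr v (p.1 - p.2) =
      fr v 0 * (fr u 2 + fr u (-2)) + fr u 0 * (fr v 2 + fr v (-2)) := by
    rw [hY, sum_insert (by decide), sum_insert (by decide), sum_insert (by decide), sum_singleton]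
    norm_num
    ring
  have hu1 : fr u 2 + fr u (-2) ≤ 1 - fr u 0 := by
    have := sum_fr_le u ({0, 2, -2} : Finset ℤ)
    rw [sum_insert (by decide), sum_insert (by decide), sum_singleton] at this
    linarith
  have hv1 : fr v 2 + fr v (-2) ≤ 1 - fr v 0 := by
    have := sum_fr_le v ({0, 2, -2} : Finset ℤ)
    rw [sum_insert (by decide), sum_insert (by decide), sum_singleton] at this
    linarith
  have huv : fr u 0 + fr v 0 = 1 := by
    unfold fr
    rw [← add_div]
    have h9 : (univ.filter (fun i => u i = 0)).card + (univ.filter (fun i => v i = 0)).card =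
        Fintype.card ι := by
      rw [← card_union_of_disjoint, ← card_univ]
      · congr 1
        ext i
        simp only [mem_union, mem_filter, mem_univ, true_and, iff_true, hu, hv]
        rcases h1 i with e1 | e1 <;> rcases h2 i with e2 | e2 <;> simp [e1, e2]
      · rw [disjoint_filter]
        intro i _ h3 h4
        simp only [hu, hv] at h3 h4
        rcases h1 i with e1 | e1 <;> omega
    have h10 : ((univ.filter (fun i => u i = 0)).card : ℝ) +
        ((univ.filter (fun i => v i = 0)).card : ℝ) = Fintype.card ι := by exact_mod_cast h9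
    rw [h10, div_self hM.ne']
  have hv0 := fr_nonneg v 0
  have hu0 := fr_nonneg u 0
  have hfin : ∑ p ∈ Y, fr u (p.1 + p.2) * fr v (p.1 - p.2) ≤ f * f + (1 - f) * (1 - f) := by
    rw [hYsum, hf]
    have e1 : fr u 0 = 1 - fr v 0 := by linarith
    rw [e1] at hu1 ⊢
    have e2 : fr v 0 * (fr u 2 + fr u (-2)) ≤ fr v 0 * fr v 0 :=
      mul_le_mul_of_nonneg_left (by linarith) hv0
    have e3 : (1 - fr v 0) * (fr v 2 + fr v (-2)) ≤ (1 - fr v 0) * (1 - fr v 0) :=
      mul_le_mul_of_nonneg_left hv1 (by linarith)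
    linarith
  have := mul_le_mul_of_nonneg_left hfin hM.le
  nlinarith

/-- The total weight of the root is exponentially small. -/
lemma root_sum : ∃ M0 : ℕ, ∀ (ι : Type) [Fintype ι] [DecidableEq ι] [Nonempty ι],
    M0 ≤ Fintype.card ι → ∀ (β : ℝ) (W : (ι → ℤ) → ℝ), 64 ≤ β → Pre ι β 1 W →
    Bd ι 1 W (1/20) (1/20) →
    ∑ y : ι ⊕ ι → ℤˣ, mergeW W (fun a => ((y a : ℤˣ) : ℤ)) ≤
      Real.exp (-(Fintype.card ι : ℝ) / 10) := by
  classical
  obtain ⟨M1, hM1⟩ := growth 4 (1/25) (by norm_num)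
  refine ⟨max M1 100, ?_⟩
  intro ι _ _ _ hcard β W hβ hPre hBd
  set M := Fintype.card ι with hM
  have hMpos : (0:ℝ) < M := by rw [hM]; exact_mod_cast Fintype.card_pos
  have hM100 : (100:ℝ) ≤ M := by exact_mod_cast (le_max_right M1 100).trans hcard
  have hgrow := hM1 M ((le_max_left M1 100).trans hcard)
  let cs : (ι ⊕ ι → ℤˣ) → (ι ⊕ ι → ℤ) := fun y a => ((y a : ℤˣ) : ℤ)
  let zz : (ι ⊕ ι → ℤˣ) → (ι → ℤ × ℤ) := fun y i => (cs y (Sum.inl i), cs y (Sum.inr i))
  have hpm : ∀ y a, cs y a = 1 ∨ cs y a = -1 := by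
    intro y a
    rcases Int.units_eq_one_or (y a) with h | h
    · left; simp [cs, h]
    · right; simp [cs, h]
  have h2M : (2:ℝ) ^ M ≤ Real.exp (7/10 * M) := by
    have h3 : (2:ℝ) ≤ Real.exp (7/10) := by
      rw [← Real.log_le_iff_le_exp (by norm_num)]
      have := Real.log_two_lt_d9; linarith
    calc (2:ℝ)^M ≤ (Real.exp (7/10))^M := pow_le_pow_left₀ (by norm_num) h3 _
      _ = _ := by rw [← Real.exp_nat_mul]; ring_nf
  have hu1 : ∀ w, W w ≤ Real.exp (7/10 * M) := by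
    intro w
    refine (hPre.u1 w).trans (le_trans ?_ h2M)
    apply pow_le_pow_left₀ (by positivity)
    have : Real.exp (-β) ≤ 1 := Real.exp_le_one_iff.mpr (by linarith)
    linarith
  -- the pointwise bound
  have hpt : ∀ y : ι ⊕ ι → ℤˣ, mergeW W (cs y) ≤
      Real.exp (-(39/10) * M) + Real.exp (-(S (zz y))) * Real.exp (-(18/100) * M) := by
    intro y
    set z1 : ι → ℤ := fun i => cs y (Sum.inl i) with hz1
    set z2 : ι → ℤ := fun i => cs y (Sum.inr i) with hz2
    have hz1pm : ∀ i, z1 i = 1 ∨ z1 i = -1 := fun i => hpm y _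
    have hz2pm : ∀ i, z2 i = 1 ∨ z2 i = -1 := fun i => hpm y _
    have husd : us (cs y) = fun i => z1 i + z2 i := rfl
    have hvsd : vs (cs y) = fun i => z1 i - z2 i := rfl
    set f := fr (fun i => z1 i - z2 i) 0 with hf
    have hf0 : 0 ≤ f := fr_nonneg _ _
    have hf1 : f ≤ 1 := by
      have := sum_fr_le (fun i => z1 i - z2 i) ({0} : Finset ℤ)
      rwa [sum_singleton] at this
    -- squares
    have hsq : ∀ i, ((z1 i - z2 i : ℤ) : ℝ)^2 = if z1 i - z2 i = 0 then 0 else 4 := by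
      intro i
      rcases hz1pm i with e1 | e1 <;> rcases hz2pm i with e2 | e2 <;> simp [e1, e2] <;> norm_num
    have hsqu : ∀ i, ((z1 i + z2 i : ℤ) : ℝ)^2 = 4 - ((z1 i - z2 i : ℤ) : ℝ)^2 := by
      intro i
      rcases hz1pm i with e1 | e1 <;> rcases hz2pm i with e2 | e2 <;> simp [e1, e2] <;> norm_num
    have hvsum : ∑ i, ((vs (cs y) i : ℤ) : ℝ)^2 = 4 * M * (1 - f) := by
      rw [hvsd]
      simp_rw [hsq]
      have h3 : ∀ i, (if z1 i - z2 i = 0 then (0:ℝ) else 4) =
          4 - 4 * (if z1 i - z2 i = 0 then (1:ℝ) else 0) := by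
        intro i; split_ifs <;> norm_num
      simp_rw [h3]
      rw [sum_sub_distrib, ← mul_sum, ← sum_filter, sum_const, sum_const, card_univ, nsmul_eq_mul,
        nsmul_eq_mul, mul_one]
      have h4 : (((univ.filter (fun i => z1 i - z2 i = 0)).card : ℕ) : ℝ) = M * f := by
        rw [hf]; unfold fr; rw [← hM]; field_simp
      rw [h4]; ring
    have husum : ∑ i, ((us (cs y) i : ℤ) : ℝ)^2 = 4 * M * f := by
      rw [husd]
      simp_rw [hsqu]
      rw [sum_sub_distrib, sum_const, card_univ, nsmul_eq_mul]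
      have := hvsum
      rw [hvsd] at this
      rw [this]; ring
    have hβM : 64 * (M:ℝ) ≤ β * M := mul_le_mul_of_nonneg_right hβ hMpos.le
    by_cases hA : f ≤ 1/4
    · have h3 := hPre.u4 (us (cs y))
      rw [husum, ← hM] at h3
      have h4 : W (us (cs y)) ≤ Real.exp (7/10 * M) * Real.exp (-(16/3 * M)) := by
        refine h3.trans ?_
        apply mul_le_mul h2M _ (Real.exp_pos _).le (Real.exp_pos _).le
        apply Real.exp_le_exp.mpr
        have h5 : (M:ℝ)/12 ≤ (M:ℝ)/4 - 4 * M * f / (3 * 2 ^ 1) := by nlinarith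
        have h6 : β * ((M:ℝ)/12) ≤ β * ((M:ℝ)/4 - 4 * M * f / (3 * 2 ^ 1)) :=
          mul_le_mul_of_nonneg_left h5 (by linarith)
        linarith
      have h7 : mergeW W (cs y) ≤ (Real.exp (7/10 * M) * Real.exp (-(16/3 * M))) *
          Real.exp (7/10 * M) :=
        mul_le_mul h4 (hu1 _) (hPre.nonneg _) (by positivity)
      refine h7.trans ?_
      rw [← Real.exp_add, ← Real.exp_add]
      have h8 : Real.exp (7/10 * M + -(16/3 * M) + 7/10 * M) ≤ Real.exp (-(39/10) * M) := by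
        apply Real.exp_le_exp.mpr; linarith
      have h9 : 0 ≤ Real.exp (-(S (zz y))) * Real.exp (-(18/100) * M) := by positivity
      linarith
    push Not at hA
    by_cases hB : 3/4 ≤ f
    · have h3 := hPre.u4 (vs (cs y))
      rw [hvsum, ← hM] at h3
      have h4 : W (vs (cs y)) ≤ Real.exp (7/10 * M) * Real.exp (-(16/3 * M)) := by
        refine h3.trans ?_
        apply mul_le_mul h2M _ (Real.exp_pos _).le (Real.exp_pos _).le
        apply Real.exp_le_exp.mpr
        have h5 : (M:ℝ)/12 ≤ (M:ℝ)/4 - 4 * M * (1 - f) / (3 * 2 ^ 1) := by nlinarith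
        have h6 : β * ((M:ℝ)/12) ≤ β * ((M:ℝ)/4 - 4 * M * (1 - f) / (3 * 2 ^ 1)) :=
          mul_le_mul_of_nonneg_left h5 (by linarith)
        linarith
      have h7 : mergeW W (cs y) ≤ Real.exp (7/10 * M) *
          (Real.exp (7/10 * M) * Real.exp (-(16/3 * M))) :=
        mul_le_mul (hu1 _) h4 (hPre.nonneg _) (by positivity)
      refine h7.trans ?_
      rw [← Real.exp_add, ← Real.exp_add]
      have h8 : Real.exp (7/10 * M + (7/10 * M + -(16/3 * M))) ≤ Real.exp (-(39/10) * M) := by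
        apply Real.exp_le_exp.mpr; linarith
      have h9 : 0 ≤ Real.exp (-(S (zz y))) * Real.exp (-(18/100) * M) := by positivity
      linarith
    push Not at hB
    -- middle case
    have hbu : ∀ i, |us (cs y) i| ≤ 2 ^ 1 := by
      intro i
      rw [husd]
      rcases hz1pm i with e1 | e1 <;> rcases hz2pm i with e2 | e2 <;> simp [e1, e2]
    have hbv : ∀ i, |vs (cs y) i| ≤ 2 ^ 1 := by
      intro i
      rw [hvsd]
      rcases hz1pm i with e1 | e1 <;> rcases hz2pm i with e2 | e2 <;> simp [e1, e2]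
    have h3 := hBd _ hbu
    have h4 := hBd _ hbv
    have h5 : mergeW W (cs y) ≤ Real.exp (-((1 - 1/20) * S (us (cs y))) + M * (1/20)) *
        Real.exp (-((1 - 1/20) * S (vs (cs y))) + M * (1/20)) :=
      mul_le_mul h3 h4 (hPre.nonneg _) (Real.exp_pos _).le
    have hI := I_root z1 z2 hz1pm hz2pm f hf
    rw [← husd, ← hvsd] at hI
    have hzzd : (fun i => (z1 i, z2 i)) = zz y := rfl
    rw [hzzd, ← hM] at hI
    have hSz : S (zz y) ≤ M * (14/10) := by
      have h6 := S_le_log_card (zz y) ({(1,1), (1,-1), (-1,1), (-1,-1)} : Finset (ℤ × ℤ)) (by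
        intro i
        rcases hz1pm i with e1 | e1 <;> rcases hz2pm i with e2 | e2 <;>
          simp only [hz1, hz2] at e1 e2 <;> simp [zz, e1, e2])
      rw [← hM] at h6
      refine h6.trans ?_
      apply mul_le_mul_of_nonneg_left _ hMpos.le
      have h7 : ({(1,1), (1,-1), (-1,1), (-1,-1)} : Finset (ℤ × ℤ)).card = 4 := by decide
      rw [h7]
      have h8 : Real.log ((4:ℕ):ℝ) = 2 * Real.log 2 := by
        rw [show ((4:ℕ):ℝ) = 2^2 by norm_num, Real.log_pow]; norm_num
      rw [h8]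
      have := Real.log_two_lt_d9; linarith
    have hff : (3:ℝ)/8 ≤ 2 * f * (1 - f) := by nlinarith
    have hI2 : (3:ℝ)/8 * M ≤ S (us (cs y)) + S (vs (cs y)) - S (zz y) := by
      have := mul_le_mul_of_nonneg_left hff hMpos.le
      linarith
    refine h5.trans ?_
    rw [← Real.exp_add, ← Real.exp_add]
    have h9 : Real.exp (-((1 - 1/20) * S (us (cs y))) + M * (1/20) +
        (-((1 - 1/20) * S (vs (cs y))) + M * (1/20))) ≤
        Real.exp (-(S (zz y)) + -(18/100) * M) := by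
      apply Real.exp_le_exp.mpr
      nlinarith
    have := Real.exp_pos (-(39/10) * M)
    linarith
  -- sum up
  have hsum := sum_le_sum (s := (univ : Finset (ι ⊕ ι → ℤˣ))) fun y _ => hpt y
  refine hsum.trans ?_
  rw [sum_add_distrib, sum_const, card_univ, nsmul_eq_mul, ← sum_mul]
  have hcardy : ((Fintype.card (ι ⊕ ι → ℤˣ) : ℕ) : ℝ) ≤ Real.exp (14/10 * M) := by
    rw [card_signs, Fintype.card_sum, pow_add, ← hM]
    calc (2:ℝ)^M * 2^M ≤ Real.exp (7/10*M) * Real.exp (7/10*M) :=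
          mul_le_mul h2M h2M (by positivity) (Real.exp_pos _).le
      _ = _ := by rw [← Real.exp_add]; ring_nf
  have hzinj : Function.Injective zz := by
    intro a b hab
    funext c
    rcases c with i | i
    · have := congrArg Prod.fst (congrFun hab i)
      exact Units.ext this
    · have := congrArg Prod.snd (congrFun hab i)
      exact Units.ext this
  have hS : ∑ y : ι ⊕ ι → ℤˣ, Real.exp (-(S (zz y))) ≤ Real.exp (1/25 * M) := by
    have h1 : ∑ y : ι ⊕ ι → ℤˣ, Real.exp (-(S (zz y))) =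
        ∑ z ∈ univ.image zz, Real.exp (-(S z)) := by
      rw [sum_image (fun x _ y _ hh => hzinj hh)]
    rw [h1]
    have h2 := sum_exp_neg_S_le ({(1,1), (1,-1), (-1,1), (-1,-1)} : Finset (ℤ × ℤ))
      (univ.image zz) (by
        intro z hz i
        obtain ⟨y, _, rfl⟩ := mem_image.mp hz
        rcases hpm y (Sum.inl i) with e1 | e1 <;> rcases hpm y (Sum.inr i) with e2 | e2 <;>
          simp [zz, e1, e2])
    have h7 : ({(1,1), (1,-1), (-1,1), (-1,-1)} : Finset (ℤ × ℤ)).card = 4 := by decide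
    rw [h7] at h2
    refine h2.trans (le_trans ?_ hgrow)
    rw [← hM]
    exact pow_le_pow_left₀ (by positivity) (by linarith) 4
  calc ((Fintype.card (ι ⊕ ι → ℤˣ) : ℕ) : ℝ) * Real.exp (-(39/10) * M) +
        (∑ y : ι ⊕ ι → ℤˣ, Real.exp (-(S (zz y)))) * Real.exp (-(18/100) * M)
      ≤ Real.exp (14/10 * M) * Real.exp (-(39/10) * M) +
        Real.exp (1/25 * M) * Real.exp (-(18/100) * M) := by
        apply add_le_add
        · exact mul_le_mul_of_nonneg_right hcardy (Real.exp_pos _).le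
        · exact mul_le_mul_of_nonneg_right hS (Real.exp_pos _).le
    _ = Real.exp (-(25/10) * M) + Real.exp (-(14/100) * M) := by
        rw [← Real.exp_add, ← Real.exp_add]; ring_nf
    _ ≤ Real.exp (-(14/100) * M) + Real.exp (-(14/100) * M) := by
        have : Real.exp (-(25/10) * M) ≤ Real.exp (-(14/100) * M) := by
          apply Real.exp_le_exp.mpr; nlinarith
        linarith
    _ = 2 * Real.exp (-(14/100) * M) := by ring
    _ ≤ Real.exp 1 * Real.exp (-(14/100) * M) := by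
        apply mul_le_mul_of_nonneg_right _ (Real.exp_pos _).le
        have := Real.add_one_le_exp (1:ℝ); linarith
    _ = Real.exp (1 + -(14/100) * M) := by rw [← Real.exp_add]
    _ ≤ _ := by
        apply Real.exp_le_exp.mpr
        linarith

/-- Hadamard matrices of every large power-of-two order whose cut-type norm is bounded away
from the trivial bound. -/
theorem main : ∃ ε : ℝ, 0 < ε ∧ ∃ k0 : ℕ, ∀ k : ℕ, k0 ≤ k →
    ∃ (ι : Type) (_ : Fintype ι) (_ : DecidableEq ι) (A : ι → ι → ℤ),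
      Fintype.card ι = 2 ^ k ∧ IsHad A ∧
      ∀ x y : ι → ℤˣ, ∑ i, mv A x i * ((y i : ℤ) : ℝ) ≤
        (1 - ε) * ((Fintype.card ι : ℝ) * √(Fintype.card ι : ℝ)) := by
  classical
  obtain ⟨t, ht, hQ⟩ := Q_one
  obtain ⟨M0, hM0⟩ := root_sum
  obtain ⟨k0, hk0⟩ := hQ
  set β : ℝ := 4 * 2 ^ t with hβ
  have hβ64 : (64:ℝ) ≤ β := by
    have : (2:ℝ)^4 ≤ 2 ^ t := pow_le_pow_right₀ (by norm_num) ht
    rw [hβ]; linarith
  have hβ0 : 0 < β := by linarith
  refine ⟨1 / (40 * β), by positivity, max k0 M0 + 1, fun k hk => ?_⟩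
  have hk1 : 1 ≤ k := by omega
  have hkk0 : k0 ≤ k - 1 := by
    have := le_max_left k0 M0; omega
  have hkM0 : M0 ≤ k - 1 := by
    have := le_max_right k0 M0; omega
  obtain ⟨ι, i1, i2, i3, W, hc, hpre, hbd⟩ := hk0 (k-1) hkk0
  have hMM0 : M0 ≤ Fintype.card ι := by rw [hc]; exact hkM0.trans (Nat.lt_two_pow_self).le
  have hsum := hM0 ι hMM0 β W hβ64 hpre hbd
  have hpre0 : Pre (ι ⊕ ι) β 0 (mergeW W) := Pre.merge hpre
  obtain ⟨A, hA, hAle⟩ := hpre0.dom (ι ⊕ ι → ℤˣ) univ (fun _ => 1)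
    (fun y a => ((y a : ℤˣ) : ℤ)) (fun _ _ => zero_le_one)
  simp only [one_mul] at hAle
  have htot := hAle.trans hsum
  set M := Fintype.card ι with hM
  have hMpos : (0:ℝ) < M := by rw [hM]; exact_mod_cast Fintype.card_pos
  have hcard2 : ((Fintype.card (ι ⊕ ι) : ℕ) : ℝ) = 2 * M := by
    rw [Fintype.card_sum]; push_cast; ring
  refine ⟨ι ⊕ ι, inferInstance, inferInstance, A, ?_, hA, ?_⟩
  · rw [Fintype.card_sum, ← hM, hc]
    obtain ⟨j, rfl⟩ : ∃ j, k = j + 1 := ⟨k - 1, by omega⟩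
    simp only [Nat.add_sub_cancel]
    rw [pow_succ]; ring
  · intro x y
    have h1 : Z β 0 A (fun a => ((y a : ℤˣ) : ℤ)) ≤ Real.exp (-(M:ℝ)/10) :=
      (single_le_sum (f := fun y : ι ⊕ ι → ℤˣ => Z β 0 A (fun a => ((y a : ℤˣ) : ℤ)))
        (fun y _ => Z_nonneg _ _ _ _) (mem_univ y)).trans htot
    have h2 : Real.exp (-(β / Fintype.card (ι ⊕ ι) *
        ∑ i, (mv A x i - gam (ι ⊕ ι) 0 * (((y i : ℤˣ) : ℤ) : ℝ)) ^ 2)) ≤ Real.exp (-(M:ℝ)/10) := by
      refine le_trans ?_ h1
      unfold Z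
      exact single_le_sum (f := fun x : ι ⊕ ι → ℤˣ => Real.exp (-(β / Fintype.card (ι ⊕ ι) *
        ∑ i, (mv A x i - gam (ι ⊕ ι) 0 * (((y i : ℤˣ) : ℤ) : ℝ)) ^ 2)))
        (fun _ _ => (Real.exp_pos _).le) (mem_univ x)
    have h3 := Real.exp_le_exp.mp h2
    set g := gam (ι ⊕ ι) 0 with hg
    have hgsq : g ^ 2 = 2 * M := by
      rw [hg, gam_sq, hcard2]; norm_num
    have hg0 : 0 < g := by
      have : 0 ≤ g := Real.sqrt_nonneg _
      rcases eq_or_lt_of_le this with h | h
      · rw [← h] at hgsq; nlinarith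
      · exact h
    set T := ∑ i, mv A x i * ((y i : ℤ) : ℝ) with hT
    have h4 : ∑ i, (mv A x i - g * (((y i : ℤˣ) : ℤ) : ℝ)) ^ 2 =
        8 * (M:ℝ)^2 - 2 * g * T := by
      have h5 : ∑ i, (mv A x i - g * (((y i : ℤˣ) : ℤ) : ℝ)) ^ 2 =
          ∑ i, (mv A x i)^2 - 2 * g * T + g^2 * ∑ i, (((y i : ℤˣ) : ℤ) : ℝ)^2 := by
        rw [hT, mul_sum, mul_sum, ← sum_sub_distrib, ← sum_add_distrib]
        exact sum_congr rfl fun i _ => by ring
      rw [h5, had_norm hA, hgsq]
      simp_rw [units_sq]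
      rw [sum_const, card_univ, nsmul_eq_mul, hcard2]
      ring
    rw [h4, hcard2] at h3
    have h6 : (M:ℝ)/10 ≤ β / (2 * M) * (8 * (M:ℝ)^2 - 2 * g * T) := by
      have : -(M:ℝ)/10 = -((M:ℝ)/10) := by ring
      rw [this] at h3
      linarith
    have h7 : g * T ≤ 4 * (M:ℝ)^2 * (1 - 1/(40*β)) := by
      have h8 : (M:ℝ)/10 * (2 * M) ≤ β * (8 * (M:ℝ)^2 - 2 * g * T) := by
        have := mul_le_mul_of_nonneg_right h6 (by positivity : (0:ℝ) ≤ 2 * M)
        have e : β / (2 * M) * (8 * (M:ℝ)^2 - 2 * g * T) * (2 * M) =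
            β * (8 * (M:ℝ)^2 - 2 * g * T) := by field_simp
        linarith
      have h9 : 4 * (M:ℝ)^2 * (1 - 1/(40*β)) * (2 * β) = 8 * (M:ℝ)^2 * β - (M:ℝ)^2/5 := by
        field_simp; ring
      have h10 : g * T * (2 * β) ≤ 4 * (M:ℝ)^2 * (1 - 1/(40*β)) * (2 * β) := by
        rw [h9]; nlinarith
      exact le_of_mul_le_mul_right h10 (by positivity)
    rw [hcard2]
    have hgs : √(2 * (M:ℝ)) = g := by
      rw [← hgsq, Real.sqrt_sq hg0.le]
    rw [hgs]
    -- g*T ≤ 4 M^2 (1-ε) = (2M)(g^2)(1-ε)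
    have h11 : g * T ≤ g * ((1 - 1/(40*β)) * (2 * M * g)) := by
      calc g * T ≤ 4 * (M:ℝ)^2 * (1 - 1/(40*β)) := h7
        _ = (2 * M) * (2 * M) * (1 - 1/(40*β)) := by ring
        _ = (2 * M) * g^2 * (1 - 1/(40*β)) := by rw [hgsq]
        _ = _ := by ring
    exact le_of_mul_le_mul_left h11 hg0

end Pool.Agent.Helper31.GB
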